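import Pool.Agent.Helper1.All.Dg

/-! PROJECT ALLSYSTEMS: collisions of monomial schemes (helper1). -/

set_option autoImplicit false

noncomputable section

namespace Pool.Agent.Helper1.All.COL

open Polynomial Pool.Agent.Helper1.All

/-- semicontinuity -/
theorem semi {V : Type} [AddCommGroup V] [Module ℚ V] [FiniteDimensional ℚ V] {I : Type}
    [Fintype I] (f : I → V →ₗ[ℚ] ℚ[X]) (h : ∀ v, (∀ i, (f i v).eval 0 = 0) → v = 0) :
    ∃ ε : ℚ, 0 < ε ∧ ∀ v, (∀ i, (f i v).eval ε = 0) → v = 0 := by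
  classical
  obtain ⟨r, b⟩ : ∃ r : ℕ, Nonempty (Module.Basis (Fin r) ℚ V) := ⟨_, ⟨Module.finBasis ℚ V⟩⟩
  obtain ⟨b⟩ := b
  -- the linear map at 0
  set L0 : V →ₗ[ℚ] (I → ℚ) := LinearMap.pi fun i => (Polynomial.leval 0).comp (f i) with hL0
  have hinj : LinearMap.ker L0 = ⊥ := by
    rw [LinearMap.ker_eq_bot']
    intro v hv
    apply h
    intro i
    exact congrFun hv i
  obtain ⟨g, hg⟩ := L0.exists_leftInverse_of_injective hinj
  -- the polynomial matrix
  set D : Matrix (Fin r) (Fin r) ℚ[X] := Matrix.of fun j k =>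
    ∑ i, C (b.repr (g (Pi.single i 1)) j) * f i (b k) with hD
  have heval : ∀ (ε : ℚ) (j : Fin r) (v : V),
      ∑ k, (D j k).eval ε * b.repr v k = ∑ i, b.repr (g (Pi.single i 1)) j * (f i v).eval ε := by
    intro ε j v
    have h1 : ∀ i, (f i v).eval ε = ∑ k, b.repr v k * (f i (b k)).eval ε := by
      intro i
      conv_lhs => rw [← b.sum_repr v]
      rw [map_sum, eval_finsetSum]
      apply Finset.sum_congr rfl
      intro k _
      rw [map_smul, eval_smul, smul_eq_mul]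
    simp only [hD, Matrix.of_apply, eval_finsetSum, eval_mul, eval_C, Finset.sum_mul, h1,
      Finset.mul_sum]
    rw [Finset.sum_comm]
    apply Finset.sum_congr rfl
    intro i _
    apply Finset.sum_congr rfl
    intro k _
    ring
  have h0 : (D.map (eval 0)) = 1 := by
    ext j k
    have h1 := heval 0 j (b k)
    rw [Finset.sum_eq_single k] at h1
    · rw [b.repr_self, Finsupp.single_eq_same, mul_one] at h1
      rw [Matrix.map_apply, h1]
      have h2 : g (L0 (b k)) = b k := by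
        have := LinearMap.congr_fun hg (b k)
        simpa using this
      have h3 : L0 (b k) = ∑ i, (f i (b k)).eval 0 • (Pi.single i 1 : I → ℚ) := by
        funext i
        rw [Finset.sum_apply, Finset.sum_eq_single i]
        · simp [hL0]
        · intro i' _ hi'
          simp [Ne.symm hi']
        · intro h; exact absurd (Finset.mem_univ _) h
      rw [h3, map_sum] at h2
      have h4 := congrArg (fun v => b.repr v j) h2
      simp only [map_sum, map_smul, Finsupp.coe_finsetSum, Finset.sum_apply, Finsupp.smul_apply,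
        smul_eq_mul, Module.Basis.repr_self] at h4
      rw [Matrix.one_apply]
      rw [← Finset.sum_congr rfl fun i _ => mul_comm ((f i (b k)).eval 0) _] 
      rw [h4, Finsupp.single_apply]
      simp [eq_comm]
    · intro k' _ hk'
      rw [b.repr_self, Finsupp.single_apply, if_neg (Ne.symm hk'), mul_zero]
    · intro h; exact absurd (Finset.mem_univ _) h
  have hdet : D.det.eval 0 = 1 := by
    have h1 : D.det.eval 0 = (D.map (eval 0)).det := by
      have := RingHom.map_det (evalRingHom (0 : ℚ)) D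
      simpa using this
    rw [h1, h0, Matrix.det_one]
  have hne : D.det ≠ 0 := by
    intro h1
    rw [h1] at hdet
    simp at hdet
  obtain ⟨ε, hε, hε2⟩ : ∃ ε : ℚ, 0 < ε ∧ D.det.eval ε ≠ 0 := by
    by_contra hcon
    push Not at hcon
    apply hne
    apply Polynomial.eq_zero_of_infinite_isRoot
    apply Set.Infinite.mono (s := Set.Ioi (0 : ℚ))
    · intro ε hε
      exact hcon ε hε
    · exact Set.Ioi_infinite 0
  refine ⟨ε, hε, fun v hv => ?_⟩
  have h1 : (D.map (eval ε)).mulVec (fun k => b.repr v k) = 0 := by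
    funext j
    have h2 := heval ε j v
    rw [Matrix.mulVec, dotProduct]
    simp only [Matrix.map_apply, Pi.zero_apply]
    rw [h2]
    apply Finset.sum_eq_zero
    intro i _
    rw [hv i, mul_zero]
  have h2 : (D.map (eval ε)).det ≠ 0 := by
    have h3 : D.det.eval ε = (D.map (eval ε)).det := by
      have := RingHom.map_det (evalRingHom ε) D
      simpa using this
    rw [← h3]
    exact hε2
  have h3 := Matrix.eq_zero_of_mulVec_eq_zero h2 h1
  apply b.repr.injective
  rw [map_zero]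
  ext k
  exact congrFun h3 k

/-- the conditions of the monomial scheme of diagram `lam` at `(x, y)`; the lattice point `(j, n)` is the
monomial `x^n y^j` -/
def InE (S : Finset (ℕ × ℕ)) (lam : ℕ → ℕ) (x y : ℚ) (a : ℕ × ℕ → ℚ) : Prop :=
  ∀ s k, k < lam s → ∑ q ∈ S, a q * ((((q.1.choose s : ℕ) : ℚ) * y ^ (q.1 - s)) *
    (((q.2.choose k : ℕ) : ℚ) * x ^ (q.2 - k))) = 0

/-- the coefficient of `(y - y0)^s` -/
def PS (S : Finset (ℕ × ℕ)) (y : ℚ) (s : ℕ) : (ℕ × ℕ → ℚ) →ₗ[ℚ] ℚ[X] where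
  toFun a := ∑ q ∈ S, monomial q.2 (a q * (((q.1.choose s : ℕ) : ℚ) * y ^ (q.1 - s)))
  map_add' a b := by
    rw [← Finset.sum_add_distrib]
    apply Finset.sum_congr rfl
    intro q _
    rw [Pi.add_apply, add_mul, map_add]
  map_smul' c a := by
    rw [Finset.smul_sum]
    apply Finset.sum_congr rfl
    intro q _
    rw [Pi.smul_apply, smul_eq_mul, RingHom.id_apply, mul_assoc, smul_monomial, smul_eq_mul]

theorem PS_apply (S : Finset (ℕ × ℕ)) (y : ℚ) (s : ℕ) (a : ℕ × ℕ → ℚ) :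
    PS S y s a = ∑ q ∈ S, monomial q.2 (a q * (((q.1.choose s : ℕ) : ℚ) * y ^ (q.1 - s))) := rfl

theorem dvd_iff (P : ℚ[X]) (x : ℚ) (L : ℕ) :
    (X - C x) ^ L ∣ P ↔ ∀ k < L, (hasseDeriv k P).eval x = 0 := by
  rw [X_sub_C_pow_dvd_iff, X_pow_dvd_iff]
  have e1 : P.comp (X + C x) = taylor x P := rfl
  rw [e1]
  simp only [taylor_coeff]

theorem inE_iff (S : Finset (ℕ × ℕ)) (lam : ℕ → ℕ) (x y : ℚ) (a : ℕ × ℕ → ℚ) :
    InE S lam x y a ↔ ∀ s, (X - C x) ^ (lam s) ∣ PS S y s a := by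
  unfold InE
  apply forall_congr'
  intro s
  rw [dvd_iff]
  apply forall_congr'
  intro k
  apply forall_congr'
  intro _
  have h1 : (hasseDeriv k (PS S y s a)).eval x = ∑ q ∈ S, a q *
      ((((q.1.choose s : ℕ) : ℚ) * y ^ (q.1 - s)) * (((q.2.choose k : ℕ) : ℚ) * x ^ (q.2 - k))) := by
    rw [PS_apply, map_sum, eval_finsetSum]
    apply Finset.sum_congr rfl
    intro q _
    rw [hasseDeriv_monomial, eval_monomial]
    ring
  rw [h1]

/-- the product, with the second point moved by `T` -/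
def QT (x : ℚ) (u v : ℕ) : ℚ[X][X] := (X - C (C x)) ^ u * (X - C (C x + X)) ^ v

theorem QT_monic (x : ℚ) (u v : ℕ) : (QT x u v).Monic :=
  ((monic_X_sub_C _).pow _).mul ((monic_X_sub_C _).pow _)

theorem QT_map (x : ℚ) (u v : ℕ) (ε : ℚ) :
    (QT x u v).map (evalRingHom ε) = (X - C x) ^ u * (X - C (x + ε)) ^ v := by
  unfold QT
  simp [Polynomial.map_mul, Polynomial.map_pow]

/-- the remainder -/
def RT (x : ℚ) (u v : ℕ) (k : ℕ) : ℚ[X] →ₗ[ℚ] ℚ[X] where
  toFun P := ((P.map C) %ₘ (QT x u v)).coeff k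
  map_add' P Q := by
    rw [Polynomial.map_add, add_modByMonic, coeff_add]
  map_smul' c P := by
    rw [RingHom.id_apply]
    have h1 : (c • P).map (C : ℚ →+* ℚ[X]) = (C c : ℚ[X]) • (P.map C) := by
      ext n
      simp [coeff_map, smul_eq_mul]
    rw [h1, smul_modByMonic, coeff_smul, smul_eq_mul, C_mul']

theorem RT_eval (x : ℚ) (u v k : ℕ) (P : ℚ[X]) (ε : ℚ) :
    (RT x u v k P).eval ε = (P %ₘ ((X - C x) ^ u * (X - C (x + ε)) ^ v)).coeff k := by
  have h1 : (RT x u v k P).eval ε =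
      (((P.map C) %ₘ (QT x u v)).map (evalRingHom ε)).coeff k := by
    rw [coeff_map]
    rfl
  rw [h1, Polynomial.map_modByMonic _ (QT_monic x u v), QT_map, Polynomial.map_map]
  have h2 : (evalRingHom ε).comp (C : ℚ →+* ℚ[X]) = RingHom.id ℚ := by
    ext z
    simp
  rw [h2, Polynomial.map_id]

theorem rem_zero_iff (x ε : ℚ) (u v : ℕ) (P : ℚ[X]) :
    (∀ k < u + v, (P %ₘ ((X - C x) ^ u * (X - C (x + ε)) ^ v)).coeff k = 0) ↔
      (X - C x) ^ u * (X - C (x + ε)) ^ v ∣ P := by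
  have hm : ((X - C x) ^ u * (X - C (x + ε)) ^ v).Monic :=
    ((monic_X_sub_C _).pow _).mul ((monic_X_sub_C _).pow _)
  rw [← modByMonic_eq_zero_iff_dvd hm]
  constructor
  · intro h
    ext k
    rw [coeff_zero]
    rcases lt_or_ge k (u + v) with hk | hk
    · exact h k hk
    · apply coeff_eq_zero_of_degree_lt
      refine lt_of_lt_of_le (degree_modByMonic_lt _ hm) ?_
      rw [degree_eq_natDegree hm.ne_zero, ((monic_X_sub_C x).pow u).natDegree_mul
        ((monic_X_sub_C (x + ε)).pow v), natDegree_pow, natDegree_pow, natDegree_X_sub_C,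
        natDegree_X_sub_C, mul_one, mul_one]
      exact_mod_cast hk
  · intro h k _
    rw [h, coeff_zero]

/-- the row step -/
theorem row_step (S : Finset (ℕ × ℕ)) (V : Submodule ℚ (ℕ × ℕ → ℚ)) [FiniteDimensional ℚ V]
    (lam mu : ℕ → ℕ) (x y : ℚ) (h : ∀ a ∈ V, InE S (fun s => lam s + mu s) x y a → a = 0) :
    ∃ ε : ℚ, 0 < ε ∧ ∀ a ∈ V, InE S lam x y a → InE S mu (x + ε) y a → a = 0 := by
  classical
  obtain ⟨N, hN⟩ : ∃ N : ℕ, ∀ q ∈ S, q.1 < N :=
    ⟨(S.image Prod.fst).sup id + 1, fun q hq =>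
      Nat.lt_succ_of_le (Finset.le_sup (f := id) (Finset.mem_image_of_mem _ hq))⟩
  have hz : ∀ s, N ≤ s → ∀ a, PS S y s a = 0 := by
    intro s hs a
    rw [PS_apply]
    apply Finset.sum_eq_zero
    intro q hq
    rw [Nat.choose_eq_zero_of_lt (lt_of_lt_of_le (hN q hq) hs)]
    simp
  have h0 := semi (I := Σ s : Fin N, Fin (lam s + mu s)) (V := V)
    (fun i => (RT x (lam i.1) (mu i.1) i.2).comp ((PS S y (i.1 : ℕ)).comp V.subtype)) ?_
  · obtain ⟨ε, hε, h1⟩ := h0
    refine ⟨ε, hε, fun a ha h2 h3 => ?_⟩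
    have h4 := h1 ⟨a, ha⟩ ?_
    · exact congrArg Subtype.val h4
    · rintro ⟨s, k⟩
      rw [LinearMap.comp_apply, RT_eval]
      apply (rem_zero_iff x ε _ _ _).2 _ _ k.2
      have h5 := (inE_iff S lam x y a).1 h2 s
      have h6 := (inE_iff S mu (x + ε) y a).1 h3 s
      apply IsCoprime.mul_dvd _ h5 h6
      apply IsCoprime.pow
      apply isCoprime_X_sub_C_of_isUnit_sub
      rw [isUnit_iff_ne_zero]
      intro h7
      have : ε = 0 := by linarith
      exact hε.ne' this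
  · rintro ⟨a, ha⟩ h2
    have h3 := h a ha ?_
    · exact Subtype.ext h3
    · rw [inE_iff]
      intro s
      rcases lt_or_ge s N with hs | hs
      · have h4 : (X - C x) ^ lam s * (X - C (x + 0)) ^ mu s ∣ PS S y s a := by
          rw [← rem_zero_iff]
          intro k hk
          have h5 := h2 ⟨⟨s, hs⟩, ⟨k, hk⟩⟩
          rw [LinearMap.comp_apply, RT_eval] at h5
          exact h5
        rw [add_zero, ← pow_add] at h4
        exact h4
      · rw [hz s hs a]
        exact dvd_zero _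

/-- exchange of the coordinates -/
theorem swap_iff (S : Finset (ℕ × ℕ)) (lam : ℕ → ℕ) (hl : IsDg lam) (x y : ℚ)
    (a : ℕ × ℕ → ℚ) :
    InE (S.image Prod.swap) (cj lam) y x (a ∘ Prod.swap) ↔ InE S lam x y a := by
  have h1 : ∀ s k, ∑ q ∈ S.image Prod.swap, (a ∘ Prod.swap) q *
      ((((q.1.choose s : ℕ) : ℚ) * x ^ (q.1 - s)) * (((q.2.choose k : ℕ) : ℚ) * y ^ (q.2 - k))) =
      ∑ q ∈ S, a q * ((((q.1.choose k : ℕ) : ℚ) * y ^ (q.1 - k)) *
        (((q.2.choose s : ℕ) : ℚ) * x ^ (q.2 - s))) := by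
    intro s k
    rw [Finset.sum_image fun _ _ _ _ h => Prod.swap_injective h]
    apply Finset.sum_congr rfl
    intro q _
    simp only [Function.comp, Prod.swap_swap, Prod.fst_swap, Prod.snd_swap]
    ring
  unfold InE
  constructor
  · intro h s k hk
    rw [← h1]
    exact h k s ((lt_cj hl s k).2 hk)
  · intro h s k hk
    rw [h1]
    exact h k s ((lt_cj hl k s).1 hk)

/-- the column step -/
theorem col_step (S : Finset (ℕ × ℕ)) (V : Submodule ℚ (ℕ × ℕ → ℚ)) [FiniteDimensional ℚ V]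
    (lam mu : ℕ → ℕ) (hl : IsDg lam) (hm : IsDg mu) (x y : ℚ)
    (h : ∀ a ∈ V, InE S (cj fun a => cj lam a + cj mu a) x y a → a = 0) :
    ∃ ε : ℚ, 0 < ε ∧ ∀ a ∈ V, InE S lam x y a → InE S mu x (y + ε) a → a = 0 := by
  have hs : IsDg fun a => cj lam a + cj mu a := isDg_add (isDg_cj hl) (isDg_cj hm)
  have h0 := row_step (S.image Prod.swap)
    (V.map (LinearMap.funLeft ℚ ℚ (Prod.swap : ℕ × ℕ → ℕ × ℕ))) (cj lam) (cj mu) y x ?_
  · obtain ⟨ε, hε, h1⟩ := h0
    refine ⟨ε, hε, fun a ha h2 h3 => ?_⟩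
    have h4 := h1 (a ∘ Prod.swap) ⟨a, ha, rfl⟩ ((swap_iff S lam hl x y a).2 h2)
      ((swap_iff S mu hm x (y + ε) a).2 h3)
    funext q
    have h5 := congrFun h4 q.swap
    simpa using h5
  · rintro _ ⟨a, ha, rfl⟩ h2
    have h3 : (LinearMap.funLeft ℚ ℚ (Prod.swap : ℕ × ℕ → ℕ × ℕ)) a = a ∘ Prod.swap := rfl
    rw [h3] at h2 ⊢
    rw [← cj_cj hs] at h2
    have h4 := h a ha ((swap_iff S _ (isDg_cj hs) x y a).1 h2)
    rw [h4]
    rfl

/-- the conditions as a submodule -/
def KE (S : Finset (ℕ × ℕ)) (lam : ℕ → ℕ) (x y : ℚ) : Submodule ℚ (ℕ × ℕ → ℚ) where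
  carrier := {a | InE S lam x y a}
  add_mem' := by
    intro a b ha hb s k hk
    simp only [Pi.add_apply, add_mul, Finset.sum_add_distrib]
    rw [ha s k hk, hb s k hk, add_zero]
  zero_mem' := by
    intro s k hk
    simp
  smul_mem' := by
    intro c a ha s k hk
    simp only [Pi.smul_apply, smul_eq_mul, mul_assoc]
    rw [← Finset.mul_sum]
    have h1 := ha s k hk
    simp only [mul_assoc] at h1
    rw [h1, mul_zero]

theorem mem_KE {S : Finset (ℕ × ℕ)} {lam : ℕ → ℕ} {x y : ℚ} {a : ℕ × ℕ → ℚ} :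
    a ∈ KE S lam x y ↔ InE S lam x y a := Iff.rfl

/-- THE COLLISION THEOREM -/
theorem coll {n : ℕ} (m : Fin n → ℕ) (A : Finset (Fin n)) (lam : ℕ → ℕ) (hA : Dg m A lam) :
    ∀ (S : Finset (ℕ × ℕ)) (V : Submodule ℚ (ℕ × ℕ → ℚ)) (_ : FiniteDimensional ℚ V) (x y : ℚ),
      0 < x → 0 < y → (∀ a ∈ V, InE S lam x y a → a = 0) →
      ∃ u w : Fin n → ℚ, (∀ i, 0 < u i) ∧ (∀ i, 0 < w i) ∧
        ∀ a ∈ V, (∀ i ∈ A, InE S (fun s => m i - s) (u i) (w i) a) → a = 0 := by
  classical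
  -- two clusters
  have key : ∀ (A B : Finset (Fin n)) (lam mu : ℕ → ℕ), Disjoint A B →
      (∀ (S : Finset (ℕ × ℕ)) (V : Submodule ℚ (ℕ × ℕ → ℚ)) (_ : FiniteDimensional ℚ V) (x y : ℚ),
        0 < x → 0 < y → (∀ a ∈ V, InE S lam x y a → a = 0) →
        ∃ u w : Fin n → ℚ, (∀ i, 0 < u i) ∧ (∀ i, 0 < w i) ∧
          ∀ a ∈ V, (∀ i ∈ A, InE S (fun s => m i - s) (u i) (w i) a) → a = 0) →
      (∀ (S : Finset (ℕ × ℕ)) (V : Submodule ℚ (ℕ × ℕ → ℚ)) (_ : FiniteDimensional ℚ V) (x y : ℚ),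
        0 < x → 0 < y → (∀ a ∈ V, InE S mu x y a → a = 0) →
        ∃ u w : Fin n → ℚ, (∀ i, 0 < u i) ∧ (∀ i, 0 < w i) ∧
          ∀ a ∈ V, (∀ i ∈ B, InE S (fun s => m i - s) (u i) (w i) a) → a = 0) →
      ∀ (S : Finset (ℕ × ℕ)) (V : Submodule ℚ (ℕ × ℕ → ℚ)) (_ : FiniteDimensional ℚ V)
        (x y x' y' : ℚ), 0 < x → 0 < y → 0 < x' → 0 < y' →
        (∀ a ∈ V, InE S lam x y a → InE S mu x' y' a → a = 0) →
        ∃ u w : Fin n → ℚ, (∀ i, 0 < u i) ∧ (∀ i, 0 < w i) ∧
          ∀ a ∈ V, (∀ i ∈ A ∪ B, InE S (fun s => m i - s) (u i) (w i) a) → a = 0 := by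
    intro A B lam mu hAB ihA ihB S V hV x y x' y' hx hy hx' hy' h
    obtain ⟨u1, w1, hu1, hw1, h1⟩ := ihA S (V ⊓ KE S mu x' y')
      (Submodule.finiteDimensional_of_le inf_le_left) x y hx hy (by
        intro a ha h2
        exact h a ha.1 h2 ha.2)
    obtain ⟨u2, w2, hu2, hw2, h2⟩ := ihB S
      (V ⊓ ⨅ i ∈ A, KE S (fun s => m i - s) (u1 i) (w1 i))
      (Submodule.finiteDimensional_of_le inf_le_left) x' y' hx' hy' (by
        intro a ha h3
        apply h1 a ⟨ha.1, h3⟩
        intro i hi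
        have h4 := ha.2
        simp only [SetLike.mem_coe, Submodule.mem_iInf] at h4
        exact h4 i hi)
    refine ⟨fun i => if i ∈ A then u1 i else u2 i, fun i => if i ∈ A then w1 i else w2 i,
      fun i => ?_, fun i => ?_, fun a ha h3 => ?_⟩
    · simp only
      split_ifs
      · exact hu1 i
      · exact hu2 i
    · simp only
      split_ifs
      · exact hw1 i
      · exact hw2 i
    · apply h2 a
      · refine ⟨ha, ?_⟩
        simp only [SetLike.mem_coe, Submodule.mem_iInf]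
        intro i hi
        have h4 := h3 i (Finset.mem_union_left _ hi)
        simp only [if_pos hi] at h4
        exact h4
      · intro i hi
        have h4 := h3 i (Finset.mem_union_right _ hi)
        have h5 : i ∉ A := fun h6 => (Finset.disjoint_left.1 hAB h6) hi
        simp only [if_neg h5] at h4
        exact h4
  induction hA with
  | pt i =>
    intro S V hV x y hx hy h
    refine ⟨fun _ => x, fun _ => y, fun _ => hx, fun _ => hy, fun a ha h1 => ?_⟩
    exact h a ha (h1 i (Finset.mem_singleton_self i))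
  | row A B lam mu hAB hA hB ihA ihB =>
    intro S V hV x y hx hy h
    obtain ⟨ε, hε, h1⟩ := row_step S V lam mu x y h
    exact key A B lam mu hAB ihA ihB S V hV x y (x + ε) y hx hy (by linarith) hy h1
  | col A B lam mu hAB hA hB ihA ihB =>
    intro S V hV x y hx hy h
    obtain ⟨ε, hε, h1⟩ := col_step S V lam mu (isDg_of hA) (isDg_of hB) x y h
    exact key A B lam mu hAB ihA ihB S V hV x y x (y + ε) hx hy hx (by linarith) h1

end Pool.Agent.Helper1.All.COL
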