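import Pool.Agent.Helper98.UN.MOV

/-!
PROJECT ALLSYSTEMS (MP_d3128a_ag, slot 12), captain helper1: arbitrary multiplicities, both sides.
Definitions. The lattice point `(j, n) : ℕ × ℤ` is the monomial `x^n y^j`; `IndepC` and `rw'` are in
Helper98/UN/MOV.lean.
-/

set_option autoImplicit false

noncomputable section

namespace Pool.Agent.Helper1.All

open Pool.Agent.Helper98.UN

/-- the number of points of the line `n = X` -/
def rl (S : Finset (ℕ × ℤ)) (X : ℤ) : ℕ := (S.filter fun q => q.2 = X).card

/-- the number of lines `n = X` with at least `s` points -/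
def nr (S : Finset (ℕ × ℤ)) (s : ℕ) : ℕ := ((S.image Prod.snd).filter fun X => s ≤ rl S X).card

/-- the compressed set: the points `(i, X)`, `0 ≤ i < rl S X` -/
def cmp (S : Finset (ℕ × ℤ)) : Finset (ℕ × ℤ) :=
  (S.image Prod.snd).biUnion fun X => (Finset.range (rl S X)).image fun i => (i, X)

/-- the number of points of level `i` -/
def lv (S : Finset (ℕ × ℤ)) (i : ℕ) : ℕ := (rw' S i).card

section Groups

variable {n : ℕ}

/-- the points of the group `G` -/
def gr (g : Fin n → ℕ) (G : ℕ) : Finset (Fin n) := Finset.univ.filter fun l => g l = G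

/-- the number of conditions of the group `G` on the coefficient of `(x - x_G)^τ` -/
def SG (m g : Fin n → ℕ) (G τ : ℕ) : ℕ := ∑ l ∈ gr g G, (m l - τ)

/-- the number of pairs (group, order `τ`) with at least `s` conditions -/
def LG (m g : Fin n → ℕ) (s : ℕ) : ℕ :=
  ∑ G ∈ Finset.univ.image g, ((Finset.range (∑ l, m l)).filter fun τ => s ≤ SG m g G τ).card

/-- the sum over the groups of the mean multiplicity -/
def BG (m g : Fin n → ℕ) : ℝ :=
  ∑ G ∈ Finset.univ.image g, ((∑ l ∈ gr g G, m l : ℕ) : ℝ) / ((gr g G).card : ℝ)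

/-- the sum over the groups of the inverse of the number of points -/
def RG (g : Fin n → ℕ) : ℝ := ∑ G ∈ Finset.univ.image g, 1 / ((gr g G).card : ℝ)

/-- the sum of the `m l + 1` of the group `G` -/
def HF (m g : Fin n → ℕ) (G : ℕ) : ℕ := ∑ l ∈ gr g G, (m l + 1)

/-- the sum over the groups of the maximum of `m l + 1` -/
def BF (m g : Fin n → ℕ) : ℕ := ∑ G ∈ Finset.univ.image g, (gr g G).sup fun l => m l + 1

end Groups

end Pool.Agent.Helper1.All
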