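import Pool.Agent.Helper1.All.Defs

/-!
PROJECT ALLSYSTEMS, collision calculus (helper1): diagrams. `lam s` is the length of the row `s` of a
diagram; `Dg m A lam`: the points of multiplicities `m i`, `i ∈ A`, degenerate to the monomial scheme of
diagram `lam`.
-/

set_option autoImplicit false

noncomputable section

namespace Pool.Agent.Helper1.All

/-- the conjugate diagram -/
def cj (lam : ℕ → ℕ) (a : ℕ) : ℕ := {s : ℕ | a < lam s}.ncard

/-- diagrams of guillotine trees -/
inductive Dg {n : ℕ} (m : Fin n → ℕ) : Finset (Fin n) → (ℕ → ℕ) → Prop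
  | pt (i : Fin n) : Dg m {i} (fun s => m i - s)
  | row (A B : Finset (Fin n)) (lam mu : ℕ → ℕ) : Disjoint A B → Dg m A lam → Dg m B mu →
      Dg m (A ∪ B) (fun s => lam s + mu s)
  | col (A B : Finset (Fin n)) (lam mu : ℕ → ℕ) : Disjoint A B → Dg m A lam → Dg m B mu →
      Dg m (A ∪ B) (cj fun a => cj lam a + cj mu a)

/-- a diagram: decreasing rows, finitely many -/
def IsDg (lam : ℕ → ℕ) : Prop := Antitone lam ∧ ∃ N, lam N = 0

theorem lt_cj {lam : ℕ → ℕ} (h : IsDg lam) (s a : ℕ) : s < cj lam a ↔ a < lam s := by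
  obtain ⟨hl, N, hN⟩ := h
  have hex : ∃ t, lam t ≤ a := ⟨N, by omega⟩
  classical
  obtain ⟨t, ht1, ht2⟩ : ∃ t, lam t ≤ a ∧ ∀ t' < t, a < lam t' :=
    ⟨Nat.find hex, Nat.find_spec hex, fun t' h' => not_le.1 (Nat.find_min hex h')⟩
  have h1 : {s : ℕ | a < lam s} = Set.Iio t := by
    ext s
    rw [Set.mem_ofPred_eq, Set.mem_Iio]
    constructor
    · intro h
      by_contra hcon
      have := hl (not_lt.1 hcon)
      omega
    · exact ht2 s
  have h2 : cj lam a = t := by
    unfold cj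
    rw [h1, ← Nat.card_coe_set_eq, Nat.card_eq_fintype_card, Fintype.card_Iio, Nat.card_Iio]
  rw [h2, ← Set.mem_Iio, ← h1, Set.mem_ofPred_eq]

theorem isDg_cj {lam : ℕ → ℕ} (h : IsDg lam) : IsDg (cj lam) := by
  constructor
  · intro a b hab
    by_contra hcon
    have h1 := (lt_cj h _ _).1 (not_le.1 hcon)
    have h2 : a < lam (cj lam a) := by omega
    have h3 := (lt_cj h _ _).2 h2
    omega
  · refine ⟨lam 0, ?_⟩
    by_contra hcon
    have h1 := (lt_cj h 0 (lam 0)).1 (Nat.pos_of_ne_zero hcon)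
    omega

theorem isDg_add {lam mu : ℕ → ℕ} (h : IsDg lam) (h' : IsDg mu) :
    IsDg fun s => lam s + mu s := by
  obtain ⟨h1, N, hN⟩ := h
  obtain ⟨h1', N', hN'⟩ := h'
  refine ⟨fun a b hab => Nat.add_le_add (h1 hab) (h1' hab), max N N', ?_⟩
  have h2 := h1 (le_max_left N N')
  have h3 := h1' (le_max_right N N')
  simp only
  omega

theorem isDg_of {n : ℕ} {m : Fin n → ℕ} {A : Finset (Fin n)} {lam : ℕ → ℕ} (h : Dg m A lam) :
    IsDg lam := by
  induction h with
  | pt i =>
    refine ⟨fun a b hab => ?_, m i, Nat.sub_self _⟩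
    simp only
    omega
  | row A B lam mu _ _ _ ih1 ih2 => exact isDg_add ih1 ih2
  | col A B lam mu _ _ _ ih1 ih2 => exact isDg_cj (isDg_add (isDg_cj ih1) (isDg_cj ih2))

theorem cj_cj {lam : ℕ → ℕ} (h : IsDg lam) : cj (cj lam) = lam := by
  funext s
  have h1 : ∀ a, a < cj (cj lam) s ↔ a < lam s := fun a =>
    (lt_cj (isDg_cj h) a s).trans (lt_cj h s a)
  apply le_antisymm
  · by_contra hcon
    exact lt_irrefl _ ((h1 _).1 (not_le.1 hcon))
  · by_contra hcon
    exact lt_irrefl _ ((h1 _).2 (not_le.1 hcon))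

end Pool.Agent.Helper1.All
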