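import Pool.Agent.Helper1.All.COL

/-! PROJECT ALLSYSTEMS: the one-point Horace criterion for monomial schemes and the two main criteria
(helper1). The selection lemma is adapted from Helper40/Nag/HOD.lean. -/

set_option autoImplicit false

noncomputable section

namespace Pool.Agent.Helper1.All.FIN

open Pool.Agent.Helper1.All Pool.Agent.Helper98.UN Pool.Agent.Helper1.All.COL

/-- the lines `n = X` with at least `s` points -/
def ln (S : Finset (ℕ × ℤ)) (s : ℕ) : Finset ℤ :=
  (S.image Prod.snd).filter fun X => s ≤ (S.filter fun q => q.2 = X).card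

theorem nr_eq (S : Finset (ℕ × ℤ)) (s : ℕ) : nr S s = (ln S s).card := rfl

theorem mem_ln {S : Finset (ℕ × ℤ)} {s : ℕ} {X : ℤ} (hs : 1 ≤ s) :
    X ∈ ln S s ↔ s ≤ (S.filter fun q => q.2 = X).card := by
  unfold ln
  rw [Finset.mem_filter]
  constructor
  · exact fun h => h.2
  · intro h
    refine ⟨?_, h⟩
    have h1 : 0 < (S.filter fun q => q.2 = X).card := lt_of_lt_of_le hs h
    obtain ⟨q, hq⟩ := Finset.card_pos.1 h1
    rw [Finset.mem_filter] at hq
    exact Finset.mem_image.2 ⟨q, hq.1, hq.2⟩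

theorem card_row_erase {S : Finset (ℕ × ℤ)} {q : ℕ × ℤ} (hq : q ∈ S) :
    ((S.erase q).filter fun p => p.2 = q.2).card = (S.filter fun p => p.2 = q.2).card - 1 := by
  have h : (S.erase q).filter (fun p => p.2 = q.2) = (S.filter fun p => p.2 = q.2).erase q := by
    ext p
    simp only [Finset.mem_filter, Finset.mem_erase]
    tauto
  have h2 : q ∈ S.filter fun p => p.2 = q.2 := Finset.mem_filter.2 ⟨hq, rfl⟩
  rw [h, Finset.card_erase_of_mem h2]

theorem row_erase_ne {S : Finset (ℕ × ℤ)} {q : ℕ × ℤ} {X : ℤ} (hX : X ≠ q.2) :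
    ((S.erase q).filter fun p => p.2 = X) = S.filter fun p => p.2 = X := by
  ext p
  simp only [Finset.mem_filter, Finset.mem_erase]
  constructor
  · rintro ⟨⟨-, h1⟩, h2⟩
    exact ⟨h1, h2⟩
  · rintro ⟨h1, h2⟩
    refine ⟨⟨?_, h1⟩, h2⟩
    rintro rfl
    exact hX h2.symm

/-- The choice of the subset. -/
theorem choose (μ : ℕ → ℕ) (hμ : ∀ s, μ (s + 1) ≤ μ s) : ∀ (n : ℕ) (S : Finset (ℕ × ℤ)),
    S.card = n → (∀ s : ℕ, 1 ≤ s → μ s ≤ (ln S s).card) →
    ∃ S' ⊆ S, ∀ s : ℕ, 1 ≤ s → (ln S' s).card = μ s := by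
  intro n
  induction n with
  | zero =>
    intro S hS h
    refine ⟨S, subset_rfl, fun s hs => ?_⟩
    have h1 : S = ∅ := Finset.card_eq_zero.1 hS
    have h2 : (ln S s).card = 0 := by
      rw [h1]; unfold ln; simp
    have h3 := h s hs
    omega
  | succ n ih =>
    intro S hS h
    by_cases hle : ∀ s : ℕ, 1 ≤ s → (ln S s).card ≤ μ s
    · exact ⟨S, subset_rfl, fun s hs => le_antisymm (hle s hs) (h s hs)⟩
    · push Not at hle
      -- the greatest such s
      have hbd : ∀ s : ℕ, 1 ≤ s → μ s < (ln S s).card → s ≤ S.card := by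
        intro s hs h1
        have h2 : 0 < (ln S s).card := lt_of_le_of_lt (Nat.zero_le _) h1
        obtain ⟨X, hX⟩ := Finset.card_pos.1 h2
        rw [mem_ln hs] at hX
        exact hX.trans (Finset.card_le_card (Finset.filter_subset _ _))
      classical
      set P : ℕ → Prop := fun s => 1 ≤ s ∧ μ s < (ln S s).card with hP
      obtain ⟨s₁, hs₁, hs₁'⟩ := hle
      have hP1 : P s₁ := ⟨hs₁, hs₁'⟩
      set s := Nat.findGreatest P S.card with hsdef
      have hs : P s := Nat.findGreatest_spec (hbd s₁ hs₁ hs₁') hP1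
      have hmax : ∀ t, s < t → ¬ P t := by
        intro t ht hPt
        exact Nat.findGreatest_is_greatest ht (hbd t hPt.1 hPt.2) hPt
      obtain ⟨hs1, hs2⟩ := hs
      have h3 : (ln S (s + 1)).card ≤ μ (s + 1) := by
        by_contra hcon
        exact hmax (s + 1) (Nat.lt_succ_self s) ⟨by omega, by omega⟩
      have h4 : (ln S (s + 1)).card < (ln S s).card :=
        lt_of_le_of_lt (h3.trans (hμ s)) hs2
      obtain ⟨X, hX, hX'⟩ : ∃ X ∈ ln S s, X ∉ ln S (s + 1) := by
        by_contra hcon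
        push Not at hcon
        exact absurd (Finset.card_le_card (fun X hX => hcon X hX)) (not_le.2 h4)
      rw [mem_ln hs1] at hX
      rw [mem_ln (by omega)] at hX'
      have hrow : (S.filter fun p => p.2 = X).card = s := by omega
      obtain ⟨q, hq⟩ := Finset.card_pos.1 (lt_of_lt_of_le hs1 hX)
      rw [Finset.mem_filter] at hq
      obtain ⟨hqS, rfl⟩ := hq
      have hcard : (S.erase q).card = n := by
        rw [Finset.card_erase_of_mem hqS, hS]; rfl
      have hnew : ∀ t : ℕ, 1 ≤ t → μ t ≤ (ln (S.erase q) t).card := by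
        intro t ht
        by_cases hts : t = s
        · -- one row is lost
          have h5 : (ln S t).erase q.2 ⊆ ln (S.erase q) t := by
            intro Y hY
            rw [Finset.mem_erase] at hY
            obtain ⟨hY1, hY2⟩ := hY
            rw [mem_ln ht] at hY2 ⊢
            rwa [row_erase_ne hY1]
          have h6 := Finset.card_le_card h5
          have h7 : (ln S t).card - 1 ≤ ((ln S t).erase q.2).card := Finset.pred_card_le_card_erase
          rw [hts] at h6 h7 ⊢
          omega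
        · have h5 : ln S t ⊆ ln (S.erase q) t := by
            intro Y hY
            rw [mem_ln ht] at hY ⊢
            by_cases hYq : Y = q.2
            · subst hYq
              rw [card_row_erase hqS]
              rw [hrow] at hY ⊢
              omega
            · rwa [row_erase_ne hYq]
          exact (h t ht).trans (Finset.card_le_card h5)
      obtain ⟨S', hS', hS''⟩ := ih (S.erase q) hcard hnew
      exact ⟨S', hS'.trans (Finset.erase_subset _ _), hS''⟩

/-- Counting by rows. -/
theorem card_eq (S : Finset (ℕ × ℤ)) (B : ℕ) (hB : S.card ≤ B) :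
    S.card = ∑ s ∈ Finset.range B, (ln S (s + 1)).card := by
  have h1 : S.card = ∑ X ∈ S.image Prod.snd, (S.filter fun q => q.2 = X).card :=
    Finset.card_eq_sum_card_image Prod.snd S
  rw [h1]
  have h2 : ∀ s ∈ Finset.range B, (ln S (s + 1)).card =
      ∑ X ∈ S.image Prod.snd, if s + 1 ≤ (S.filter fun q => q.2 = X).card then 1 else 0 := by
    intro s _
    unfold ln
    rw [Finset.card_filter]
  rw [Finset.sum_congr rfl h2, Finset.sum_comm]
  refine Finset.sum_congr rfl fun X _ => ?_
  rw [← Finset.card_filter]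
  have h3 : (Finset.range B).filter (fun s => s + 1 ≤ (S.filter fun q => q.2 = X).card) =
      Finset.range (S.filter fun q => q.2 = X).card := by
    ext s
    simp only [Finset.mem_filter, Finset.mem_range]
    have h4 : (S.filter fun q => q.2 = X).card ≤ B :=
      (Finset.card_le_card (Finset.filter_subset _ _)).trans hB
    omega
  rw [h3, Finset.card_range]

theorem sum_sub (m B : ℕ) (hB : m ≤ B) : ∑ s ∈ Finset.range B, (m + 1 - (s + 1)) =
    (m + 1).choose 2 := by
  induction m with
  | zero =>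
    have : ∀ s ∈ Finset.range B, (0 + 1 - (s + 1)) = 0 := fun s _ => by omega
    rw [Finset.sum_congr rfl this]
    simp
  | succ m ih =>
    have h1 : ∀ s ∈ Finset.range B, (m + 1 + 1 - (s + 1)) =
        (m + 1 - (s + 1)) + if s < m + 1 then 1 else 0 := by
      intro s _
      split_ifs with h <;> omega
    rw [Finset.sum_congr rfl h1, Finset.sum_add_distrib, ih (by omega), ← Finset.card_filter]
    have h2 : (Finset.range B).filter (fun s => s < m + 1) = Finset.range (m + 1) := by
      ext s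
      simp only [Finset.mem_filter, Finset.mem_range]
      omega
    rw [h2, Finset.card_range, Nat.choose_succ_succ' (m + 1) 1, Nat.choose_one_right]
    ring


/-- one point: a line with few points -/
theorem line0 (S : Finset (ℕ × ℤ)) (a : ℕ × ℤ → ℚ) (β : ℕ) (X : ℤ)
    (hc : (S.filter fun q => q.2 = X).card ≤ β)
    (h : ∀ β' < β, ∑ q ∈ S.filter (fun q => q.2 = X), a q * ((q.1.choose β' : ℕ) : ℚ) = 0) :
    ∀ q ∈ S.filter (fun q => q.2 = X), a q = 0 := by
  classical
  have hinj : Set.InjOn (Prod.fst : ℕ × ℤ → ℕ) (S.filter fun q => q.2 = X) := by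
    intro p hp q hq hpq
    rw [Finset.mem_coe, Finset.mem_filter] at hp hq
    exact Prod.ext hpq (hp.2.trans hq.2.symm)
  have h1 := one β ((S.filter fun q => q.2 = X).image Prod.fst) (fun j => a (j, X)) ?_ ?_
  · intro q hq
    have h2 := h1 q.1 (Finset.mem_image_of_mem _ hq)
    have h3 : (q.1, X) = q := by
      rw [Finset.mem_filter] at hq
      exact Prod.ext rfl hq.2.symm
    rwa [h3] at h2
  · exact Finset.card_image_le.trans hc
  · intro β' hβ'
    rw [Finset.sum_image hinj, ← h β' hβ']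
    apply Finset.sum_congr rfl
    intro q hq
    rw [Finset.mem_filter] at hq
    have h3 : (q.1, X) = q := Prod.ext rfl hq.2.symm
    rw [h3]

/-- ONE-POINT HORACE -/
theorem hor1 (S : Finset (ℕ × ℤ)) (lam : ℕ → ℕ) (hS : ∀ s, nr S (s + 1) ≤ lam s) (a : ℕ × ℤ → ℚ)
    (ha : ∀ s k, k < lam s → ∑ q ∈ S, a q * (((q.1.choose s : ℕ) : ℚ) *
      ((Ring.choose q.2 k : ℤ) : ℚ)) = 0) : ∀ q ∈ S, a q = 0 := by
  classical
  have key : ∀ β : ℕ, ∀ X : ℤ,
      ∑ q ∈ S.filter (fun q => q.2 = X), a q * ((q.1.choose β : ℕ) : ℚ) = 0 := by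
    intro β
    induction β using Nat.strong_induction_on with
    | _ β ih =>
      have hsmall : ∀ X : ℤ, X ∉ ln S (β + 1) →
          ∑ q ∈ S.filter (fun q => q.2 = X), a q * ((q.1.choose β : ℕ) : ℚ) = 0 := by
        intro X hX
        rw [mem_ln (by omega)] at hX
        have h1 := line0 S a β X (by omega) (fun β' hβ' => ih β' hβ' X)
        apply Finset.sum_eq_zero
        intro q hq
        rw [h1 q hq, zero_mul]
      have h0 := Pool.Agent.Helper65.Nag.HOR.root (b := 1) (fun _ => lam β) (ln S (β + 1))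
        (fun X => ∑ q ∈ S.filter (fun q => q.2 = X), a q * ((q.1.choose β : ℕ) : ℚ)) ?_ ?_
      · intro X
        by_cases hX : X ∈ ln S (β + 1)
        · exact h0 X hX
        · exact hsmall X hX
      · intro l k hk
        have hl : (l : ℕ) = 0 := by omega
        have h1 := ha β k hk
        have h2 : ∑ q ∈ S, a q * (((q.1.choose β : ℕ) : ℚ) * ((Ring.choose q.2 k : ℤ) : ℚ)) =
            ∑ X ∈ S.image Prod.snd,
              (∑ q ∈ S.filter (fun q => q.2 = X), a q * ((q.1.choose β : ℕ) : ℚ)) *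
              (((Ring.choose X k : ℤ) : ℚ) * (((l : ℕ) : ℚ) + 1) ^ X) := by
          rw [← Finset.sum_fiberwise_of_maps_to (s := S) (t := S.image Prod.snd) (g := Prod.snd)
            (fun q hq => Finset.mem_image_of_mem _ hq)]
          apply Finset.sum_congr rfl
          intro X _
          rw [Finset.sum_mul]
          apply Finset.sum_congr rfl
          intro q hq
          rw [(Finset.mem_filter.1 hq).2, hl]
          simp only [Nat.cast_zero, zero_add, one_zpow, mul_one]
          ring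
        rw [h2] at h1
        rw [← h1]
        apply Finset.sum_subset
        · unfold ln
          exact Finset.filter_subset _ _
        · intro X _ hX
          rw [hsmall X hX, zero_mul]
      · have h3 := hS β
        rw [nr_eq] at h3
        simpa using h3
  intro q hq
  exact line0 S a (S.filter fun q' => q'.2 = q.2).card q.2 le_rfl (fun β' _ => key β' q.2) q
    (Finset.mem_filter.2 ⟨hq, rfl⟩)

/-- Vandermonde with a power -/
theorem vdm (n lo : ℤ) (k : ℕ) (u : ℚ) (hu : u ≠ 0) (hn : lo ≤ n) :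
    (((n - lo).toNat.choose k : ℕ) : ℚ) * u ^ ((n - lo).toNat - k) =
      u ^ (-lo - (k : ℤ)) * ∑ ij ∈ Finset.HasAntidiagonal.antidiagonal k,
        ((Ring.choose (-lo) ij.2 : ℤ) : ℚ) * (((Ring.choose n ij.1 : ℤ) : ℚ) * u ^ n) := by
  obtain ⟨j, hj⟩ : ∃ j : ℕ, n - lo = j := ⟨(n - lo).toNat, by omega⟩
  have hj2 : (n - lo).toNat = j := by omega
  rw [hj2]
  have e3 : ∑ ij ∈ Finset.HasAntidiagonal.antidiagonal k,
      ((Ring.choose (-lo) ij.2 : ℤ) : ℚ) * (((Ring.choose n ij.1 : ℤ) : ℚ) * u ^ n) =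
      u ^ n * ((j.choose k : ℕ) : ℚ) := by
    have h2 : ((j.choose k : ℕ) : ℤ) = ∑ ij ∈ Finset.HasAntidiagonal.antidiagonal k,
        Ring.choose n ij.1 * Ring.choose (-lo) ij.2 := by
      rw [← Ring.add_choose_eq k (Commute.all n (-lo)), ← sub_eq_add_neg, hj,
        Ring.choose_natCast]
    have h3 := congrArg (fun z : ℤ => (z : ℚ)) h2
    push_cast at h3
    rw [h3, Finset.mul_sum]
    apply Finset.sum_congr rfl
    intro ij _
    ring
  rw [e3]
  by_cases hka : k ≤ j
  · have h4 : u ^ (j - k) = u ^ (-lo - (k : ℤ)) * u ^ n := by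
      rw [← zpow_add₀ hu, ← zpow_natCast]
      congr 1
      omega
    rw [h4]
    ring
  · rw [Nat.choose_eq_zero_of_lt (by omega)]
    simp

/-- THE CRITERION, empty side -/
theorem emp {n : ℕ} (m : Fin n → ℕ) (A : Finset (Fin n)) (lam : ℕ → ℕ) (hA : Dg m A lam)
    (S : Finset (ℕ × ℤ)) (hS : ∀ s, nr S (s + 1) ≤ lam s) :
    ∃ u w : Fin n → ℚ, (∀ i, 0 < u i) ∧ (∀ i, 0 < w i) ∧ IndepC m u w S := by
  classical
  obtain ⟨lo, hlo⟩ := (S.image Prod.snd).bddBelow
  have hlo' : ∀ q ∈ S, lo ≤ q.2 := fun q hq => hlo (Finset.mem_image_of_mem _ hq)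
  set σ : ℕ × ℤ → ℕ × ℕ := fun q => (q.1, (q.2 - lo).toNat) with hσ
  have hinj : Set.InjOn σ (S : Set (ℕ × ℤ)) := by
    intro p hp q hq h
    simp only [hσ, Prod.mk.injEq] at h
    have h1 := hlo' p hp
    have h2 := hlo' q hq
    apply Prod.ext h.1
    omega
  obtain ⟨W, hW⟩ : ∃ W : (({q // q ∈ S.image σ} → ℚ) →ₗ[ℚ] (ℕ × ℕ → ℚ)),
      W = Function.ExtendByZero.linearMap ℚ (Subtype.val : {q // q ∈ S.image σ} → ℕ × ℕ) :=
    ⟨_, rfl⟩
  have hout : ∀ a ∈ LinearMap.range W, ∀ q ∉ S.image σ, a q = 0 := by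
    rintro _ ⟨c, rfl⟩ q hq
    rw [hW]
    have h1 : (Function.ExtendByZero.linearMap ℚ
        (Subtype.val : {q // q ∈ S.image σ} → ℕ × ℕ)) c = Function.extend Subtype.val c 0 := rfl
    rw [h1, Function.extend_apply']
    · rfl
    · rintro ⟨p, rfl⟩
      exact hq p.2
  have hin : ∀ a : ℕ × ℕ → ℚ, (∀ q ∉ S.image σ, a q = 0) → a ∈ LinearMap.range W := by
    intro a ha
    refine ⟨fun p => a p.1, ?_⟩
    rw [hW]
    have h1 : (Function.ExtendByZero.linearMap ℚ
        (Subtype.val : {q // q ∈ S.image σ} → ℕ × ℕ)) (fun p => a p.1) =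
        Function.extend Subtype.val (fun p : {q // q ∈ S.image σ} => a p.1) 0 := rfl
    rw [h1]
    funext q
    by_cases hq : q ∈ S.image σ
    · have h2 := Subtype.val_injective.extend_apply (fun p : {q // q ∈ S.image σ} => a p.1) 0
        ⟨q, hq⟩
      exact h2
    · rw [Function.extend_apply', ha q hq]
      · rfl
      · rintro ⟨p, rfl⟩
        exact hq p.2
  obtain ⟨u, w, hu, hw, huw⟩ := coll m A lam hA (S.image σ) (LinearMap.range W)
    inferInstance 1 1 one_pos one_pos (by
      intro a ha h1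
      have h2 := hor1 S lam hS (fun q => a (σ q)) (by
        intro s k hk
        -- Vandermonde in the other direction
        have h3 : ∀ q ∈ S, ((Ring.choose q.2 k : ℤ) : ℚ) =
            ∑ ij ∈ Finset.HasAntidiagonal.antidiagonal k,
              ((((σ q).2.choose ij.1 : ℕ) : ℚ) * ((Ring.choose lo ij.2 : ℤ) : ℚ)) := by
          intro q hq
          have h4 := hlo' q hq
          have h5 : q.2 = (((q.2 - lo).toNat : ℕ) : ℤ) + lo := by omega
          have h6 : Ring.choose q.2 k = ∑ ij ∈ Finset.HasAntidiagonal.antidiagonal k,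
              Ring.choose (((q.2 - lo).toNat : ℕ) : ℤ) ij.1 * Ring.choose lo ij.2 := by
            rw [← Ring.add_choose_eq k (Commute.all _ lo), ← h5]
          rw [h6]
          push_cast [Ring.choose_natCast]
          rfl
        have h4 : ∑ q ∈ S, a (σ q) * (((q.1.choose s : ℕ) : ℚ) * ((Ring.choose q.2 k : ℤ) : ℚ)) =
            ∑ ij ∈ Finset.HasAntidiagonal.antidiagonal k, ((Ring.choose lo ij.2 : ℤ) : ℚ) *
              ∑ q ∈ S.image σ, a q * ((((q.1.choose s : ℕ) : ℚ) * 1 ^ (q.1 - s)) *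
                (((q.2.choose ij.1 : ℕ) : ℚ) * 1 ^ (q.2 - ij.1))) := by
          simp only [Finset.sum_image hinj, Finset.mul_sum]
          rw [Finset.sum_comm]
          apply Finset.sum_congr rfl
          intro q hq
          rw [h3 q hq, Finset.mul_sum, Finset.mul_sum]
          apply Finset.sum_congr rfl
          intro ij _
          rw [one_pow, one_pow]
          have h7 : (σ q).1 = q.1 := rfl
          rw [h7]
          ring
        rw [h4]
        apply Finset.sum_eq_zero
        intro ij hij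
        have h8 := Finset.HasAntidiagonal.mem_antidiagonal.1 hij
        rw [h1 s ij.1 (by omega), mul_zero])
      funext q
      by_cases hq : q ∈ S.image σ
      · obtain ⟨p, hp, rfl⟩ := Finset.mem_image.1 hq
        exact h2 p hp
      · exact hout a ha q hq)
  refine ⟨u, w, hu, hw, ?_⟩
  intro a ha
  obtain ⟨a', ha'⟩ : ∃ a' : ℕ × ℕ → ℚ, a' = fun p => if p ∈ S.image σ then
      a (p.1, (p.2 : ℤ) + lo) else 0 := ⟨_, rfl⟩
  have hback : ∀ q ∈ S, a' (σ q) = a q := by
    intro q hq
    rw [ha']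
    simp only
    rw [if_pos (Finset.mem_image_of_mem _ hq)]
    congr 1
    have h1 := hlo' q hq
    apply Prod.ext
    · rfl
    · simp only [hσ]
      omega
  have h1 := huw a' (hin a' (by
    intro q hq
    rw [ha']
    simp only
    rw [if_neg hq])) (by
    intro i _ s k hk
    replace hk : k < m i - s := hk
    rw [Finset.sum_image hinj]
    have h2 : ∀ q ∈ S, a' (σ q) * (((((σ q).1.choose s : ℕ) : ℚ) * w i ^ ((σ q).1 - s)) *
        ((((σ q).2.choose k : ℕ) : ℚ) * u i ^ ((σ q).2 - k))) =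
        u i ^ (-lo - (k : ℤ)) * ∑ ij ∈ Finset.HasAntidiagonal.antidiagonal k,
          ((Ring.choose (-lo) ij.2 : ℤ) : ℚ) * (a q * (((q.1.choose s : ℕ) : ℚ) *
            w i ^ (q.1 - s) * (((Ring.choose q.2 ij.1 : ℤ) : ℚ) * u i ^ q.2))) := by
      intro q hq
      have h3 := vdm q.2 lo k (u i) (hu i).ne' (hlo' q hq)
      have h4 : (σ q).2 = (q.2 - lo).toNat := rfl
      have h5 : (σ q).1 = q.1 := rfl
      rw [hback q hq, h4, h5, h3, Finset.mul_sum, Finset.mul_sum, Finset.mul_sum,
        Finset.mul_sum]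
      apply Finset.sum_congr rfl
      intro ij _
      ring
    rw [Finset.sum_congr rfl h2, ← Finset.mul_sum, Finset.sum_comm]
    rw [Finset.sum_eq_zero, mul_zero]
    intro ij hij
    have h8 := Finset.HasAntidiagonal.mem_antidiagonal.1 hij
    rw [← Finset.mul_sum, ha i ij.1 s (by omega), mul_zero])
  intro q hq
  rw [← hback q hq, h1]
  rfl

/-- the size of the diagram -/
theorem size {n : ℕ} (m : Fin n → ℕ) (A : Finset (Fin n)) (lam : ℕ → ℕ) (hA : Dg m A lam) :
    ∃ B0, ∀ B, B0 ≤ B → ∑ s ∈ Finset.range B, lam s = ∑ i ∈ A, (m i + 1).choose 2 := by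
  classical
  -- the size of the conjugate
  have hc : ∀ lam : ℕ → ℕ, IsDg lam → ∀ N : ℕ, (∃ B0, ∀ B, B0 ≤ B →
      ∑ s ∈ Finset.range B, lam s = N) → ∃ B0, ∀ B, B0 ≤ B →
      ∑ s ∈ Finset.range B, cj lam s = N := by
    intro lam hl N hN
    obtain ⟨B0, hB0⟩ := hN
    obtain ⟨B1, hB1⟩ := hl.2
    obtain ⟨B2, hB2⟩ := (isDg_cj hl).2
    refine ⟨max B0 (max B1 B2), fun B hB => ?_⟩
    rw [← hB0 B (by omega)]
    have h1 : ∀ s ∈ Finset.range B, lam s = ∑ a ∈ Finset.range B, if a < lam s then 1 else 0 := by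
      intro s _
      rw [← Finset.card_filter]
      have h2 : (Finset.range B).filter (fun a => a < lam s) = Finset.range (lam s) := by
        ext a
        rw [Finset.mem_filter, Finset.mem_range, Finset.mem_range]
        constructor
        · exact fun h => h.2
        · intro h
          refine ⟨?_, h⟩
          by_contra hcon
          have h3 := (lt_cj hl s a).2 h
          have h4 := (isDg_cj hl).1 (show B2 ≤ a by omega)
          omega
      rw [h2, Finset.card_range]
    have h1' : ∀ a ∈ Finset.range B, cj lam a =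
        ∑ s ∈ Finset.range B, if a < lam s then 1 else 0 := by
      intro a _
      rw [← Finset.card_filter]
      have h2 : (Finset.range B).filter (fun s => a < lam s) = Finset.range (cj lam a) := by
        ext s
        rw [Finset.mem_filter, Finset.mem_range, Finset.mem_range, lt_cj hl]
        constructor
        · exact fun h => h.2
        · intro h
          refine ⟨?_, h⟩
          by_contra hcon
          have h4 := hl.1 (show B1 ≤ s by omega)
          omega
      rw [h2, Finset.card_range]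
    rw [Finset.sum_congr rfl h1, Finset.sum_congr rfl h1', Finset.sum_comm]
  have ha : ∀ (lam mu : ℕ → ℕ) (N N' : ℕ), (∃ B0, ∀ B, B0 ≤ B →
      ∑ s ∈ Finset.range B, lam s = N) → (∃ B0, ∀ B, B0 ≤ B →
      ∑ s ∈ Finset.range B, mu s = N') → ∃ B0, ∀ B, B0 ≤ B →
      ∑ s ∈ Finset.range B, (lam s + mu s) = N + N' := by
    intro lam mu N N' h1 h2
    obtain ⟨B0, hB0⟩ := h1
    obtain ⟨B1, hB1⟩ := h2
    refine ⟨max B0 B1, fun B hB => ?_⟩
    rw [Finset.sum_add_distrib, hB0 B (by omega), hB1 B (by omega)]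
  induction hA with
  | pt i =>
    refine ⟨m i, fun B hB => ?_⟩
    rw [Finset.sum_singleton, ← sum_sub (m i) B hB]
    apply Finset.sum_congr rfl
    intro s _
    show m i - s = m i + 1 - (s + 1)
    omega
  | row A B lam mu hAB hA hB ihA ihB =>
    rw [Finset.sum_union hAB]
    exact ha lam mu _ _ ihA ihB
  | col A B lam mu hAB hA hB ihA ihB =>
    rw [Finset.sum_union hAB]
    exact hc _ (isDg_add (isDg_cj (isDg_of hA)) (isDg_cj (isDg_of hB))) _
      (ha _ _ _ _ (hc _ (isDg_of hA) _ ihA) (hc _ (isDg_of hB) _ ihB))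

/-- THE CRITERION, regular side -/
theorem reg {n : ℕ} (m : Fin n → ℕ) (lam : ℕ → ℕ) (hA : Dg m Finset.univ lam)
    (S : Finset (ℕ × ℤ)) (hS : ∀ s, lam s ≤ nr S (s + 1)) :
    ∃ S' ⊆ S, S'.card = ∑ i, (m i + 1).choose 2 ∧
      ∃ u w : Fin n → ℚ, (∀ i, 0 < u i) ∧ (∀ i, 0 < w i) ∧ IndepC m u w S' := by
  classical
  have hl := isDg_of hA
  obtain ⟨S', hS', hS''⟩ := choose (fun s => lam (s - 1))
    (fun s => hl.1 (by omega)) S.card S rfl (by
      intro s hs
      have h1 := hS (s - 1)
      rw [nr_eq] at h1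
      have h2 : s - 1 + 1 = s := by omega
      rwa [h2] at h1)
  refine ⟨S', hS', ?_, emp m Finset.univ lam hA S' fun s => ?_⟩
  · obtain ⟨B0, hB0⟩ := size m Finset.univ lam hA
    obtain ⟨B, hB⟩ : ∃ B, B = max B0 S'.card := ⟨_, rfl⟩
    rw [← hB0 B (by omega), card_eq S' B (by omega)]
    apply Finset.sum_congr rfl
    intro s _
    rw [hS'' (s + 1) (by omega)]
    rfl
  · rw [nr_eq, hS'' (s + 1) (by omega)]
    exact le_rfl

end Pool.Agent.Helper1.All.FIN
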