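import Pool.Agent.Helper1.All.Defs
import Pool.Agent.Helper97.Nag.Goals1

/-!
PROJECT ALLSYSTEMS (MP_d3128a_ag, slot 12), captain helper1, co-captains helper79, helper35.

THEOREM. `n` general points, multiplicities `m_i`, any map `g` (the groups are its fibres), `r_G` the
number of points of the group `G`.
(E) `3 d < BG`, `d² RG < BG²` (BG = sum of the means, RG = sum of the `1 / r_G`): no curve of degree `d`.
(F) `3 HF_G < d + 3`, `HF_G BF < (d + 3)²` for all groups: the dimension is the expected one.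
(C) `m_i ≤ M`, `(3 d + M)(d + 3 M) ≤ 3 ∑ m_i²`: empty; `m_i + 1 ≤ M`, `3 ∑ (m_i + 1)² ≤ (3 D - M)(D - 3 M)`,
`D = d + 3 ≥ 3 M`: the expected dimension.

PROOF. The reduction to the triangle `InT` is that of the project NAGATA with the points
`(x, y) = (u_l, y_l)` of the torus, `u_l, y_l` rational (S_BLKY, S_MAIN). Put the points of the group `G` at
`(G + 1, 1 + ε z_l)`, `z_l = l + 1`; for `ε → 0` the set `S` may be replaced by the compressed set (S_CMP).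
On the compressed set: S_GHOR. Then the counts S_CNE, S_CNF, S_LGE, S_LGF, S_LGS, the parameter S_PRE, S_PRF
and the greedy groups S_GRE, S_GRF.

Deliver `Pool/Agent/<Seat>/All/XXX.lean`, namespace `Pool.Agent.<Seat>.All.XXX`,
`theorem t (h1 : S_AAA) ... : S_XXX`; allowed hypotheses: the goals named.
-/

set_option autoImplicit false

noncomputable section

namespace Pool.Agent.Helper1.All

open Module Pool.Agent.Helper97 Pool.Agent.Helper97.Nag Pool.Agent.Helper98.UN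

open Pool.Agent.Helper97.Tate (OO KK SS cf IsTh qe Th iO ser evx evK th Van Fm tst nP Idx Indep IsCub)

/-! ### Geometry -/

/-- BLKY (hypotheses S_DETR, S_ENTX). As S_BLKX with the points `(u l, y l)` of the torus. (Adapt
Helper90/Nag/BLKX.lean: the coefficient at the extreme monomial is now
`C(n, α) C(j, β) (u l)^n (y l)^j`; the factor `(y l)^j` is put in the entries as the constant
`C (y l ^ j)`, or in DETR on the entries `(y l ^ j) • ENTX d (u l) α β j _`.) -/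
def S_BLKY : Prop := ∀ (F : Type) [Field F] [CharZero F] (d b : ℕ) (M : Fin b → ℕ) (u y : Fin b → ℚ)
  (rho : ℝ) (x : Fˣ), GenX x → (∀ l, 0 < u l) → (∀ l, y l ≠ 0) →
  ∀ x' : Fin b → Fˣ, (∀ l, ((x' l : Fˣ) : F) = (u l : F) * (x : F)) →
  ∀ C : Finset (ℕ × ℤ), (∀ c ∈ C, InT d rho c.1 c.2) → IndepC M u y C →
  ∀ a : ℕ × ℤ → KK F, (∀ (l : Fin b) (α β : ℕ), α + β < M l →
    ∑ c ∈ C, a c * (((y l : ℚ) : KK F) ^ c.1 * (c.1.choose β : KK F) *
      PowerSeries.coeff α (SEX d (x' l) c.1 (c.2 % ((3 * (d - 3 * c.1) : ℕ) : ℤ)).toNat)) = 0) →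
    ∀ c ∈ C, a c = 0

/-- MAIN (hypotheses S_BLKY and those of `Helper97.Nag.main1`). (Adapt Helper97/Nag/Main1.lean,
`main1`: in S_MIKV take `Y l = (y l : KK F)` and `v l = C (Y l) * (...)⁻¹`.) -/
def S_MAIN : Prop := ∀ (d b : ℕ) (M : Fin b → ℕ) (u y : Fin b → ℚ) (rho : ℝ) (C : Finset (ℕ × ℤ)),
  (∀ l, 0 < u l) → (∀ l, y l ≠ 0) → (∀ c ∈ C, InT d rho c.1 c.2) → IndepC M u y C →
  ∃ (K : Type) (_ : Field K) (_ : CharZero K) (P : Fin b → Fin 3 → K),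
    finrank K (Fm K d ⊓ ⨅ l, Van (P l) (M l) : Submodule K (MvPolynomial (Fin 3) K)) + C.card ≤
      ∑ j ∈ Finset.range (d / 3 + 1), nu1 d j

/-- CMP. The compression. `R` is any subset of the compressed set.
PROOF. For a row `X` with the exponents `j ∈ J`, `r = |J|`, the matrix `C(j, i)`, `j ∈ J`, `i < r`, is
invertible, so there are rational `c_{i, j}` with `∑_{j ∈ J} c_{i, j} y^j ≡ (y - 1)^i` modulo
`(y - 1)^r`; hence `f_{X,i}(ε, z) = ε^(-i) ∑_j c_{i,j} (1 + ε z)^j` is a polynomial in `ε` and `z` with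
`f_{X,i}(0, z) = z^i`. The conditions at the points `(x_l, 1 + ε z_l)` on the combinations
`∑_j c_{i,j} x^X y^j`, `(i, X) ∈ R`, multiplied by `ε^(β - i)`, are a matrix `A(ε)` with entries in `ℚ[ε]`,
`A(0)` is the matrix of `IndepC M x z R`. `det (Aᵀ A)` is a polynomial, not zero at `0`, so not zero at some
small rational `ε > 0`. So the columns of `S` have rank at least `|R|` at this `ε`. -/
def S_CMP : Prop := ∀ (b : ℕ) (M : Fin b → ℕ) (x z : Fin b → ℚ) (S R : Finset (ℕ × ℤ)),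
  (∀ l, 0 < x l) → R ⊆ cmp S → IndepC M x z R →
  ∃ ε : ℚ, 0 < ε ∧ (∀ l, 0 < 1 + ε * z l) ∧ ∃ S' ⊆ S, S'.card = R.card ∧
    IndepC M x (fun l => 1 + ε * z l) S'

/-! ### Two-level Descartes -/

/-- GHOR. PROOF. `F = ∑_k z^k P_k(x)`, `P_k = ∑_{(k,X) ∈ R} a x^X`. Let `T : (groups) → ℕ` be such that all
the `P_k` vanish to order `≥ T_G` at `x_G = G + 1` (`G` a value of `g`), `T = ∑_G T_G`. By Descartes
(`Helper65/Nag/HOR.lean`, `root`, adapt to the points `G + 1`) `P_k = 0` if `lv R k ≤ T`. For a group `G` the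
polynomial `∑_k z^k (coefficient of (x - x_G)^(T_G) of P_k)` vanishes at `z_l = l + 1`, `l` in the group, to
order `M l - T_G`, so if it has at most `SG M g G T_G` terms it is zero (Descartes in `z`) and `T_G` may be
raised. If this is impossible for all groups, and `K ≥ 1` is the number of the `k` with `lv R k > T` (they are
`0, ..., K-1` because `lv R` is decreasing), then `SG M g G T_G < K` for all `G`, so
`LG M g K = ∑_G #{τ : K ≤ SG τ} ≤ ∑_G T_G = T < lv R (K-1)`, against the hypothesis. So `K = 0`.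
(Induction on `∑_G (∑ M - T_G)`, `T_G ≤ ∑ M`.) -/
def S_GHOR : Prop := ∀ (b : ℕ) (M g : Fin b → ℕ) (R : Finset (ℕ × ℤ)),
  (∀ i, lv R (i + 1) ≤ lv R i) → (∀ i, lv R i ≤ LG M g (i + 1)) →
    IndepC M (fun l => (g l : ℚ) + 1) (fun l => ((l : ℕ) : ℚ) + 1) R

/-- SUB. Levels of the compressed set and subsets with given levels. PROOF. `(i, X) ∈ cmp S` iff `X` is a
row with at least `i + 1` points. -/
def S_SUB : Prop := ∀ S : Finset (ℕ × ℤ), (∀ i, lv (cmp S) i = nr S (i + 1)) ∧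
  ∀ μ : ℕ → ℕ, (∀ i, μ i ≤ nr S (i + 1)) → ∃ R ⊆ cmp S, ∀ i, lv R i = μ i

/-! ### Counts -/

/-- CNE (adapt Helper35/Nag/TRN.lean). The triangle has at most `⌈B - (s-1) R⌉` rows with at least `s`
points. PROOF. As in S_TRN; `t = d/3`, `σ = s - 1`. `s ≥ 2`: the rows lie in the open interval of length
`(rho+9) t - σ (rho+9)²/9 ≤ B - σ R`. `s = 1`, `d ≥ 1`: `0 ≤ X < (rho+9) t ≤ B`; `d = 0`: one row, `B > 0`. -/
def S_CNE : Prop := ∀ (d : ℕ) (rho B R : ℝ), 0 ≤ rho → 0 < B → 9 * R ≤ (rho + 9) ^ 2 →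
  (rho + 9) * d ≤ 3 * B → ∀ S : Finset (ℕ × ℤ), (∀ q ∈ S, InT d rho q.1 q.2) →
    ∀ i : ℕ, nr S (i + 1) ≤ ⌈B - i * R⌉₊

/-- CNF (adapt Helper80/Nag/TRR.lean). The triangle has at least `⌊(rho+9)(d+3)/3 - s (rho+9)²/9⌋` rows with
at least `s` points. -/
def S_CNF : Prop := ∀ (d : ℕ) (rho : ℝ), 1 ≤ d → 0 ≤ rho →
  (∀ j : ℕ, 3 * j < d → ∀ n : ℤ, rho * ((d : ℝ) / 3 - j) ≠ n) →
  ∃ S : Finset (ℕ × ℤ), (∀ q ∈ S, 3 * q.1 < d ∧ InT d rho q.1 q.2) ∧
    ∀ s N : ℕ, 1 ≤ s → (N : ℝ) ≤ (rho + 9) * ((d : ℝ) + 3) / 3 - s * (rho + 9) ^ 2 / 9 → N ≤ nr S s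

/-- LGE. PROOF. For a group with `r` points and sum `h`: `SG τ ≥ h - r τ > i` for the `τ < (h - i)/r`, there
are `⌈(h - i)/r⌉₊` such `τ ≥ 0` (all `< ∑ m`); the sum of the ceilings is at least the ceiling of the sum
`BG - i RG` (the negative terms are `0` in the sum of the ceilings). -/
def S_LGE : Prop := ∀ (n : ℕ) (m g : Fin n → ℕ) (i : ℕ), ⌈BG m g - i * RG g⌉₊ ≤ LG m g (i + 1)

/-- LGF. PROOF. Group `G`, `μ + 1` = the maximum of the `m l + 1`. If `s ≤ SG τ`, then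
`s ≤ ∑ (m l - τ)^+ ≤ ∑ (m l + 1) (1 - (τ+1)/(μ+1)) ≤ S₀ (1 - (τ+1)/(μ+1))` (`τ ≤ μ` as `s ≥ 1`), so
`τ + 1 ≤ (μ + 1)(1 - s/S₀)`: the number of these `τ` is at most `(μ + 1) (1 - s/S₀)^+`. -/
def S_LGF : Prop := ∀ (n : ℕ) (m g : Fin n → ℕ) (S₀ : ℝ) (s : ℕ), 1 ≤ s → 0 < S₀ →
  (∀ G ∈ Finset.univ.image g, (HF m g G : ℝ) ≤ S₀) →
    (LG m g s : ℝ) ≤ (BF m g : ℝ) * max 0 (1 - s / S₀)

/-- LGS. PROOF. `∑_{s ≥ 1} #{τ : s ≤ SG τ} = ∑_τ SG τ = ∑_{l ∈ G} ∑_τ (m l - τ)^+`. -/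
def S_LGS : Prop := ∀ (n : ℕ) (m g : Fin n → ℕ),
  (∑ i ∈ Finset.range (∑ l, m l), LG m g (i + 1) = ∑ l, (m l + 1).choose 2) ∧
    (∀ i, ∑ l, m l ≤ i → LG m g (i + 1) = 0) ∧ ∀ i, LG m g (i + 2) ≤ LG m g (i + 1)

/-- PRE (compare Helper35/Nag/TRP.lean). PROOF. `d = 0`: `rho` = a large number. `d ≥ 1`: choose an
irrational `rho` with `max 9 (3 √R) < rho + 9 < 3 B / d`. -/
def S_PRE : Prop := ∀ (d : ℕ) (B R : ℝ), 0 ≤ R → 3 * (d : ℝ) < B → (d : ℝ) ^ 2 * R < B ^ 2 →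
  ∃ rho : ℝ, 0 ≤ rho ∧ 9 * R ≤ (rho + 9) ^ 2 ∧ (rho + 9) * d ≤ 3 * B ∧
    ∀ j : ℕ, 3 * j < d → ∀ n : ℤ, rho * ((d : ℝ) / 3 - j) ≠ n

/-- PRF (compare Helper35/Nag/TRQ.lean). PROOF. Choose an irrational `rho` with
`max 9 (3 B/(d+3)) < rho + 9 < 3 (d+3)/H` (no upper bound if `H = 0`). -/
def S_PRF : Prop := ∀ (d H B : ℕ), 1 ≤ d → 3 * H < d + 3 → H * B < (d + 3) ^ 2 →
  ∃ rho : ℝ, 0 ≤ rho ∧ (rho + 9) * (H : ℝ) ≤ 3 * ((d : ℝ) + 3) ∧
    3 * (B : ℝ) ≤ (rho + 9) * ((d : ℝ) + 3) ∧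
    ∀ j : ℕ, 3 * j < d → ∀ n : ℤ, rho * ((d : ℝ) / 3 - j) ≠ n

/-! ### Greedy groups -/

/-- GRE. Some points are dropped (`ι`: the points kept). PROOF. `d = 0`: keep one point with `m_i ≥ 1`.
`d ≥ 1`: sort the multiplicities, decreasing; groups of consecutive points, each of minimal length with
`3 h ≥ d`, `h` the sum of the group; the remaining points (with `3 h < d`) are dropped. For a complete group
`3 (h - min) < d`, so `3 h < d + 3 min ≤ d + 3 M` and `3 ∑_G m_i² ≤ 3 max_G h < max_G (d + 3 M)`; for the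
remaining points `3 ∑ m_i² ≤ max d`. The sum of the maxima of all the groups (the dropped one included) is
at most `M + ∑_G min_G` (telescoping: `max` of the next group `≤ min` of the group). So
`3 ∑ m_i² < (d + 3 M)(M + ∑_G min_G)`, hence `3 d < ∑_G min_G ≤ BG`. As `h ≥ d/3` for all the groups,
`d RG = ∑ d/r ≤ ∑ 3 h/r = 3 BG`, so `d² RG ≤ 3 d BG < BG²`. -/
def S_GRE : Prop := ∀ (n d M : ℕ) (m : Fin n → ℕ), (∀ i, m i ≤ M) → 1 ≤ ∑ i, m i →
  (3 * d + M) * (d + 3 * M) ≤ 3 * ∑ i, m i ^ 2 →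
  ∃ (n' : ℕ) (m' g : Fin n' → ℕ) (ι : Fin n' → Fin n), Function.Injective ι ∧ (∀ i, m' i = m (ι i)) ∧
    3 * (d : ℝ) < BG m' g ∧ (d : ℝ) ^ 2 * RG g < BG m' g ^ 2

/-- GRF. PROOF. Sort the multiplicities, decreasing; groups of consecutive points, each of maximal
length with `3 ∑ (m_i + 1) < D`, `D = d + 3` (possible as `3 M < D` if `n ≥ 1`). If a group `G` is not the
last, and `x` is the first `m_i + 1` of the next group, then `3 (HF_G + x) ≥ D`, so `3 HF_G ≥ D - 3 M`,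
`3 ∑_G (m_i + 1)² ≥ min_G (D - 3 M) ≥ max_{next} (D - 3 M)`. Sum: `3 ∑ (m_i + 1)² > (D - 3 M)(BF - M)` (strict:
the last group). So `BF < 3 D`. -/
def S_GRF : Prop := ∀ (n d M : ℕ) (m : Fin n → ℕ), (∀ i, m i + 1 ≤ M) →
  3 * ∑ i, (m i + 1) ^ 2 ≤ (3 * (d + 3) - M) * (d + 3 - 3 * M) →
  ∃ g : Fin n → ℕ, (∀ G ∈ Finset.univ.image g, 3 * HF m g G < d + 3) ∧ BF m g ≤ 3 * (d + 3)

end Pool.Agent.Helper1.All
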