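import Pool.Agent.Helper1.All.FIN
import Pool.Agent.Helper1.All.Goals
import Pool.Agent.Helper35.All.GUI
import Pool.Agent.Helper97.Nag.Final
import Pool.Agent.Helper97.Nag.All1

/-!
PROJECT ALLSYSTEMS: the final statements from the goals (helper1).
-/

set_option autoImplicit false

noncomputable section

namespace Pool.Agent.Helper1.All

open Module Pool.Agent.Helper97 Pool.Agent.Helper97.Nag Pool.Agent.Helper98.UN

open Pool.Agent.Helper97.Tate (Van Fm)

/-- the vector space of the forms of degree `d` with multiplicity at least `m i` at the points `P i` has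
dimension `D` for general points `P i` of the plane: there is a nonzero polynomial `G` in the
coordinates of the points such that this holds for all the `P` with `G (P) ≠ 0` -/
def GenDim {n : ℕ} (d : ℕ) (m : Fin n → ℕ) (D : ℤ) : Prop :=
  ∃ G : MvPolynomial (Fin n × Fin 3) ℂ, G ≠ 0 ∧
    ∀ P : Fin n → Fin 3 → ℂ, (∀ i, P i ≠ 0) →
      MvPolynomial.eval (fun ij : Fin n × Fin 3 => P ij.1 ij.2) G ≠ 0 →
      (Module.finrank ℂ
        (↥(MvPolynomial.homogeneousSubmodule (Fin 3) ℂ d ⊓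
          ⨅ i : Fin n, Submodule.restrictScalars ℂ
            ((Ideal.span {g : MvPolynomial (Fin 3) ℂ |
                g.IsHomogeneous 1 ∧ MvPolynomial.eval (P i) g = 0}) ^ (m i)
              : Ideal (MvPolynomial (Fin 3) ℂ)))) : ℤ) = D

/-- the virtual dimension -/
def vdim {n : ℕ} (d : ℕ) (m : Fin n → ℕ) : ℤ :=
  (Nat.choose (d + 2) 2 : ℤ) - ∑ i, (Nat.choose (m i + 1) 2 : ℤ)

/-- from an upper bound of the dimension to a value -/
theorem upgrade {n d : ℕ} {m : Fin n → ℕ} {N : ℕ}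
    (h : ∃ G : MvPolynomial (Fin n × Fin 3) ℂ, G ≠ 0 ∧ ∀ P : Fin n → Fin 3 → ℂ,
      MvPolynomial.eval (fun ij : Fin n × Fin 3 => P ij.1 ij.2) G ≠ 0 →
      finrank ℂ (↥(MvPolynomial.homogeneousSubmodule (Fin 3) ℂ d ⊓
        ⨅ i : Fin n, Submodule.restrictScalars ℂ
          ((Ideal.span {g : MvPolynomial (Fin 3) ℂ |
              g.IsHomogeneous 1 ∧ MvPolynomial.eval (P i) g = 0}) ^ (m i)
            : Ideal (MvPolynomial (Fin 3) ℂ)))) ≤ N) (hN : (N : ℤ) ≤ max (vdim d m) 0) :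
    GenDim d m (max (vdim d m) 0) := by
  obtain ⟨G', hG0, hG⟩ := h
  have hmm : ∀ i : Fin n, (fun l : ℕ => if hl : l < n then m ⟨l, hl⟩ else 0) (i : ℕ) = m i := by
    intro i
    simp
  refine ⟨G' * ∏ i : Fin n, MvPolynomial.X (i, 2), ?_, ?_⟩
  · apply mul_ne_zero hG0
    rw [Finset.prod_ne_zero_iff]
    intro i _
    exact MvPolynomial.X_ne_zero _
  · intro P _ hP
    rw [map_mul, map_prod] at hP
    have hPA := left_ne_zero_of_mul hP
    have hP2 : ∀ i, P i 2 ≠ 0 := by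
      intro i
      have h4 := (Finset.prod_ne_zero_iff.1 (right_ne_zero_of_mul hP)) i (Finset.mem_univ i)
      rwa [MvPolynomial.eval_X] at h4
    have hlow := Helper18.Shgh.lower_bound n
      (fun l : ℕ => if hl : l < n then m ⟨l, hl⟩ else 0) d P hP2
    have hup := hG P hPA
    have hFS : Helper18.Shgh.FS n (fun l : ℕ => if hl : l < n then m ⟨l, hl⟩ else 0) d P =
        (MvPolynomial.homogeneousSubmodule (Fin 3) ℂ d ⊓
          ⨅ i : Fin n, Submodule.restrictScalars ℂ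
            ((Ideal.span {g : MvPolynomial (Fin 3) ℂ |
                g.IsHomogeneous 1 ∧ MvPolynomial.eval (P i) g = 0}) ^ (m i)
              : Ideal (MvPolynomial (Fin 3) ℂ))) := by
      unfold Helper18.Shgh.FS Helper18.Shgh.LI
      congr 1
      apply iInf_congr
      intro i
      rw [hmm i]
    rw [hFS] at hlow
    have hsum : ∑ i : Fin n, ((fun l : ℕ => if hl : l < n then m ⟨l, hl⟩ else 0) (i : ℕ) + 1).choose 2 =
        ∑ i, (m i + 1).choose 2 := by
      apply Finset.sum_congr rfl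
      intro i _
      rw [hmm i]
    rw [hsum] at hlow
    obtain ⟨D, hD⟩ : ∃ D : ℕ, D = finrank ℂ
        (↥(MvPolynomial.homogeneousSubmodule (Fin 3) ℂ d ⊓
          ⨅ i : Fin n, Submodule.restrictScalars ℂ
            ((Ideal.span {g : MvPolynomial (Fin 3) ℂ |
                g.IsHomogeneous 1 ∧ MvPolynomial.eval (P i) g = 0}) ^ (m i)
              : Ideal (MvPolynomial (Fin 3) ℂ)))) := ⟨_, rfl⟩
    rw [← hD] at hlow hup ⊢
    have h1 : (vdim d m) ≤ (D : ℤ) := by
      unfold vdim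
      have h2 : ((d + 2).choose 2 : ℤ) ≤ (D : ℤ) + ∑ i, ((m i + 1).choose 2 : ℤ) := by
        exact_mod_cast hlow
      linarith
    have h2 : (D : ℤ) ≤ N := by exact_mod_cast hup
    apply le_antisymm (h2.trans hN)
    exact max_le h1 (Int.natCast_nonneg D)

/-- two values of the dimension for general points agree -/
theorem gen_unique {n d : ℕ} {m : Fin n → ℕ} {D D' : ℤ} (h : GenDim d m D) (h' : GenDim d m D') :
    D = D' := by
  obtain ⟨G, hG0, hG⟩ := h
  obtain ⟨G', hG0', hG'⟩ := h'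
  have h1 : G * G' * ∏ i : Fin n, MvPolynomial.X (i, 2) ≠ 0 := by
    apply mul_ne_zero (mul_ne_zero hG0 hG0')
    rw [Finset.prod_ne_zero_iff]
    intro i _
    exact MvPolynomial.X_ne_zero _
  obtain ⟨p, hp⟩ : ∃ p : Fin n × Fin 3 → ℂ,
      MvPolynomial.eval p (G * G' * ∏ i : Fin n, MvPolynomial.X (i, 2)) ≠ 0 := by
    by_contra hcon
    push Not at hcon
    exact h1 (MvPolynomial.funext fun p => by rw [hcon p, map_zero])
  rw [map_mul, map_mul, map_prod] at hp
  have hp2 : ∀ i, (fun j => p (i, j)) ≠ (0 : Fin 3 → ℂ) := by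
    intro i h0
    have h4 := (Finset.prod_ne_zero_iff.1 (right_ne_zero_of_mul hp)) i (Finset.mem_univ i)
    rw [MvPolynomial.eval_X] at h4
    exact h4 (congrFun h0 2)
  have e1 := hG (fun i j => p (i, j)) hp2 (left_ne_zero_of_mul (left_ne_zero_of_mul hp))
  have e2 := hG' (fun i j => p (i, j)) hp2 (right_ne_zero_of_mul (left_ne_zero_of_mul hp))
  rw [← e1, e2]

/-- the empty side -/
theorem finE (hM : S_MAIN) (G : NGoals) {n d : ℕ} {m : Fin n → ℕ} {W H : ℝ} {A : Finset (Fin n)}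
    (hC : Pool.Agent.Helper35.All.GUI.Cov m W H A) (h1 : 3 * (d : ℝ) < W)
    (h2 : (d : ℝ) ^ 2 < W * H) : GenDim d m 0 ∧ vdim d m ≤ 0 := by
  obtain ⟨rho, lam, h0, ht, hD, hN⟩ := Pool.Agent.Helper35.All.GUI.empG hC h1 h2
  obtain ⟨⟨C, hCm, hcard⟩, -⟩ := G.cbt d rho ht
  obtain ⟨u, w, hu, hw, hI⟩ := FIN.emp m A lam hD C
    (hN C fun q hq => (hCm q).1 hq)
  obtain ⟨K, i1, i2, P, hP⟩ := hM d n m u w rho C hu (fun l => (hw l).ne')
    (fun c hc => (hCm c).1 hc) hI
  have h3 := transC (n := n) (d := d) (m := m) (N := 0) G.trk ⟨K, i1, i2, P, by omega⟩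
  have h4 := upgrade h3 (by simp)
  obtain ⟨G', hG0, hG⟩ := h3
  have h5 : GenDim d m 0 := ⟨G', hG0, fun P _ hP => by
    rw [Nat.le_zero.1 (hG P hP)]
    rfl⟩
  have h6 := gen_unique h4 h5
  refine ⟨h5, ?_⟩
  rw [← h6]
  exact le_max_left _ _

/-- the regular side -/
theorem finR (hM : S_MAIN) (G : NGoals) {n d : ℕ} {m : Fin n → ℕ} {W H : ℝ}
    (hC : Pool.Agent.Helper35.All.GUI.Pack m W H Finset.univ) (h1 : 3 * H < (d : ℝ) + 3)
    (h2 : W * H < ((d : ℝ) + 3) ^ 2) : GenDim d m (vdim d m) ∧ 0 ≤ vdim d m := by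
  have hd : 1 ≤ d := by
    by_contra hcon
    have h3 : d = 0 := by omega
    subst h3
    have h4 : ∀ (W H : ℝ) (A : Finset (Fin n)), Pool.Agent.Helper35.All.GUI.Pack m W H A →
        1 ≤ W ∧ 1 ≤ H := by
      intro W H A h
      induction h with
      | piece i W H h1 h2 =>
        have : (0 : ℝ) ≤ m i := Nat.cast_nonneg _
        exact ⟨by linarith, by linarith⟩
      | hor W₁ W₂ H A B _ _ _ ih1 ih2 => exact ⟨by linarith [ih1.1, ih2.1], ih1.2⟩
      | ver W H₁ H₂ A B _ _ _ ih1 ih2 => exact ⟨ih1.1, by linarith [ih1.2, ih2.2]⟩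
    have h5 := (h4 W H _ hC).2
    simp only [Nat.cast_zero, zero_add] at h1
    linarith
  obtain ⟨rho, lam, h0, ht, hD, S, hS, hN⟩ := Pool.Agent.Helper35.All.GUI.regG hd hC h1 h2
  obtain ⟨-, hsum⟩ := G.cbt d rho ht
  obtain ⟨S', hS', hcard, u, w, hu, hw, hI⟩ := FIN.reg m lam hD S hN
  obtain ⟨K, i1, i2, P, hP⟩ := hM d n m u w rho S' hu (fun l => (hw l).ne')
    (fun c hc => (hS c (hS' hc)).2) hI
  rw [hsum, hcard] at hP
  have h3 := transC (n := n) (d := d) (m := m)
    (N := (d + 2).choose 2 - ∑ l, (m l + 1).choose 2) G.trk ⟨K, i1, i2, P, by omega⟩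
  have h5 : ∑ l, (m l + 1).choose 2 ≤ (d + 2).choose 2 := by omega
  have h6 : (((d + 2).choose 2 - ∑ l, (m l + 1).choose 2 : ℕ) : ℤ) = vdim d m := by
    unfold vdim
    rw [Nat.cast_sub h5]
    push_cast
    rfl
  have h7 : 0 ≤ vdim d m := by
    rw [← h6]
    exact Int.natCast_nonneg _
  have h4 := upgrade h3 (by rw [h6]; exact le_max_left _ _)
  rw [max_eq_left h7] at h4
  exact ⟨h4, h7⟩

end Pool.Agent.Helper1.All
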