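import Pool.Agent.Helper1.All.LIN
import Pool.Agent.Helper15.All.MAIN

/-!
PROJECT ALLSYSTEMS: the theorems without hypotheses (helper1).
-/

set_option autoImplicit false

noncomputable section

namespace Pool.Agent.Helper1.All

open Module Pool.Agent.Helper97.Nag Pool.Agent.Helper98.UN

theorem all_MAIN : S_MAIN := Pool.Agent.Helper15.All.MAIN.main

/-- (E) for one system -/
theorem allE {n : ℕ} (d : ℕ) (m : Fin n → ℕ) (w h : Fin n → ℝ) (W H : ℝ) (A : Finset (Fin n))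
    (hC : Cut w h W H A)
    (hd : max (3 * H) (Real.sqrt (W * H)) * d < ∑ i ∈ A, min (w i) (h i) * m i) :
    GenDim d m 0 ∧ vdim d m ≤ 0 :=
  linE all_MAIN nGoals hC hd

/-- (E) for very general points -/
theorem allE' (n : ℕ) :
    ∃ 𝒢 : Set (MvPolynomial (Fin n × Fin 3) ℂ), 𝒢.Countable ∧ (0 ∉ 𝒢) ∧
      ∀ P : Fin n → Fin 3 → ℂ, (∀ i, P i ≠ 0) →
        (∀ G ∈ 𝒢, MvPolynomial.eval (fun ij : Fin n × Fin 3 => P ij.1 ij.2) G ≠ 0) →
        ∀ (w h : Fin n → ℝ) (W H : ℝ) (A : Finset (Fin n)), Cut w h W H A →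
        ∀ (d : ℕ) (m : Fin n → ℕ) (f : MvPolynomial (Fin 3) ℂ), f.IsHomogeneous d → f ≠ 0 →
          (∀ i, f ∈ (Ideal.span {g : MvPolynomial (Fin 3) ℂ |
            g.IsHomogeneous 1 ∧ MvPolynomial.eval (P i) g = 0}) ^ (m i)) →
          ∑ i ∈ A, min (w i) (h i) * m i ≤ max (3 * H) (Real.sqrt (W * H)) * d := by
  classical
  have hex : ∀ q : ℕ × (Fin n → ℕ), ∃ G' : MvPolynomial (Fin n × Fin 3) ℂ, G' ≠ 0 ∧
      (GenDim q.1 q.2 0 → ∀ P : Fin n → Fin 3 → ℂ, (∀ i, P i ≠ 0) →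
        MvPolynomial.eval (fun ij : Fin n × Fin 3 => P ij.1 ij.2) G' ≠ 0 →
        (finrank ℂ (↥(MvPolynomial.homogeneousSubmodule (Fin 3) ℂ q.1 ⊓
          ⨅ i : Fin n, Submodule.restrictScalars ℂ
            ((Ideal.span {g : MvPolynomial (Fin 3) ℂ |
                g.IsHomogeneous 1 ∧ MvPolynomial.eval (P i) g = 0}) ^ (q.2 i)
              : Ideal (MvPolynomial (Fin 3) ℂ)))) : ℤ) = 0) := by
    intro q
    by_cases hq : GenDim q.1 q.2 0
    · obtain ⟨G', hG0, hG⟩ := hq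
      exact ⟨G', hG0, fun _ => hG⟩
    · exact ⟨1, one_ne_zero, fun h1 => absurd h1 hq⟩
  choose gq hgq0 hgq using hex
  refine ⟨Set.range gq, Set.countable_range gq, ?_, ?_⟩
  · rintro ⟨q, hq⟩
    exact hgq0 q hq
  · intro P hP0 hP w h W H A hC d m f hf hf0 hfm
    by_contra hcon
    have h1 := (allE d m w h W H A hC (not_le.1 hcon)).1
    have h4 := hgq (d, m) h1 P hP0 (hP _ ⟨(d, m), rfl⟩)
    set V : Submodule ℂ (MvPolynomial (Fin 3) ℂ) :=
      (MvPolynomial.homogeneousSubmodule (Fin 3) ℂ d ⊓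
          ⨅ i : Fin n, Submodule.restrictScalars ℂ
            ((Ideal.span {g : MvPolynomial (Fin 3) ℂ |
                g.IsHomogeneous 1 ∧ MvPolynomial.eval (P i) g = 0}) ^ (m i)
              : Ideal (MvPolynomial (Fin 3) ℂ))) with hV
    have hfd : FiniteDimensional ℂ V := by
      have h5 : FiniteDimensional ℂ (MvPolynomial.homogeneousSubmodule (Fin 3) ℂ d) :=
        Module.Finite.iff_fg.2 (MvPolynomial.homogeneousSubmodule_fg (σ := Fin 3) (R := ℂ) d)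
      exact Submodule.finiteDimensional_of_le
        (inf_le_left : V ≤ MvPolynomial.homogeneousSubmodule (Fin 3) ℂ d)
    have h5 : V = ⊥ := Submodule.finrank_eq_zero.1 (by exact_mod_cast h4)
    have h6 : f ∈ V := by
      rw [hV, Submodule.mem_inf, Submodule.mem_iInf]
      exact ⟨hf, hfm⟩
    rw [h5, Submodule.mem_bot] at h6
    exact hf0 h6

/-- (R) -/
theorem allR {n : ℕ} (d : ℕ) (m : Fin n → ℕ) (w h : Fin n → ℝ) (W H : ℝ)
    (hC : Cut w h W H Finset.univ) (hm : ∀ i, (m i : ℝ) + 1 ≤ min (w i) (h i))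
    (hd : max (3 * H) (Real.sqrt (W * H)) < (d : ℝ) + 3) :
    GenDim d m (vdim d m) ∧ 0 ≤ vdim d m := by
  have h0 := tri m hC
  apply finR all_MAIN nGoals (cut_pack (fun i => (hm i).trans (min_le_left _ _))
    (fun i => (hm i).trans (min_le_right _ _)) hC) (lt_of_le_of_lt (le_max_left _ _) hd)
  have h1 := lt_of_le_of_lt (le_max_right _ _) hd
  have h2 : 0 ≤ W * H := mul_nonneg h0.1.le h0.2.1.le
  have h3 : Real.sqrt (W * H) ^ 2 < ((d : ℝ) + 3) ^ 2 :=
    pow_lt_pow_left₀ h1 (Real.sqrt_nonneg _) two_ne_zero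
  rwa [Real.sq_sqrt h2] at h3

end Pool.Agent.Helper1.All
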