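import Pool.Agent.Helper1.All.Goals

/-! Project ALLSYSTEMS, S_GHOR: the two-level Descartes criterion (helper1). -/

set_option autoImplicit false

noncomputable section

namespace Pool.Agent.Helper1.All.GHOR

open Pool.Agent.Helper98.UN

/-- the coefficient of order `α` at the point `G + 1` of the polynomial of level `k` -/
def cf (R : Finset (ℕ × ℤ)) (a : ℕ × ℤ → ℚ) (k G α : ℕ) : ℚ :=
  ∑ X ∈ rw' R k, a (k, X) * (((Ring.choose X α : ℤ) : ℚ) * ((G : ℚ) + 1) ^ X)

theorem lvl_zero {b : ℕ} (g : Fin b → ℕ) (R : Finset (ℕ × ℤ)) (a : ℕ × ℤ → ℚ) (T : ℕ → ℕ) (k : ℕ)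
    (hT : ∀ G ∈ Finset.univ.image g, ∀ α < T G, cf R a k G α = 0)
    (hk : lv R k ≤ ∑ G ∈ Finset.univ.image g, T G) : ∀ X ∈ rw' R k, a (k, X) = 0 := by
  classical
  obtain ⟨N, hN⟩ : ∃ N : ℕ, ∀ G ∈ Finset.univ.image g, G < N :=
    ⟨(Finset.univ.image g).sup id + 1, fun G hG => Nat.lt_succ_of_le (Finset.le_sup (f := id) hG)⟩
  apply Pool.Agent.Helper65.Nag.HOR.root
    (fun l : Fin N => if (l : ℕ) ∈ Finset.univ.image g then T l else 0) (rw' R k)
    (fun X => a (k, X))
  · intro l α hα
    by_cases hl : (l : ℕ) ∈ Finset.univ.image g
    · rw [if_pos hl] at hα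
      exact hT l hl α hα
    · rw [if_neg hl] at hα
      omega
  · refine le_trans hk (le_of_eq ?_)
    have h1 : ∑ l : Fin N, (if (l : ℕ) ∈ Finset.univ.image g then T l else 0) =
        ∑ i ∈ Finset.range N, (if i ∈ Finset.univ.image g then T i else 0) :=
      Fin.sum_univ_eq_sum_range (fun i => if i ∈ Finset.univ.image g then T i else 0) N
    rw [h1, ← Finset.sum_filter]
    apply Finset.sum_congr _ fun _ _ => rfl
    ext i
    rw [Finset.mem_filter, Finset.mem_range]
    exact ⟨fun h => ⟨hN i h, h⟩, fun h => h.2⟩

theorem t : S_GHOR := by
  classical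
  intro b M g R hdec hL a ha
  have hanti : ∀ i j, i ≤ j → lv R j ≤ lv R i := by
    intro i j hij
    induction hij with
    | refl => exact le_rfl
    | step _ ih => exact (hdec _).trans ih
  -- a bound for the levels
  obtain ⟨m, hm⟩ : ∃ m : ℕ, ∀ q ∈ R, q.1 ≤ m := by
    refine ⟨(R.image Prod.fst).sup id, fun q hq => ?_⟩
    exact Finset.le_sup (f := id) (Finset.mem_image_of_mem _ hq)
  have hfin : ∀ k, m < k → rw' R k = ∅ := by
    intro k hk
    rw [Finset.eq_empty_iff_forall_notMem]
    intro X hX
    rw [mem_rw'] at hX
    have := hm _ hX
    simp only at this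
    omega
  -- the conditions
  have hc : ∀ (l : Fin b) (α β : ℕ), α + β < M l →
      ∑ i ∈ Finset.range (m + 1), (((i.choose β : ℕ) : ℚ) *
        (((l : ℕ) : ℚ) + 1) ^ (i - β)) * cf R a i (g l) α = 0 := by
    intro l α β hαβ
    have h3 := ha l α β hαβ
    rw [sum_rows R m hm] at h3
    refine Eq.trans ?_ h3
    apply Finset.sum_congr rfl
    intro i _
    rw [cf, Finset.mul_sum]
    apply Finset.sum_congr rfl
    intro X _
    ring
  have hcf0 : ∀ k, (∀ X ∈ rw' R k, a (k, X) = 0) → ∀ G α, cf R a k G α = 0 := by
    intro k h G α
    rw [cf]
    apply Finset.sum_eq_zero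
    intro X hX
    rw [h X hX, zero_mul]
  -- the case without points
  by_cases hemp : (Finset.univ.image g) = ∅
  · intro q hq
    exfalso
    have h1 := hL q.1
    unfold LG at h1
    rw [hemp, Finset.sum_empty] at h1
    have h2 : q.2 ∈ rw' R q.1 := (mem_rw' R q.1 q.2).2 hq
    have h3 : 0 < (rw' R q.1).card := Finset.card_pos.2 ⟨_, h2⟩
    unfold lv at h1
    omega
  · obtain ⟨G0, hG0⟩ := Finset.nonempty_iff_ne_empty.2 hemp
    -- the orders may be raised
    have key : ∀ t : ℕ, ∃ T : ℕ → ℕ, (∀ k, ∀ G ∈ Finset.univ.image g, ∀ α < T G,
        cf R a k G α = 0) ∧ t ≤ ∑ G ∈ Finset.univ.image g, T G := by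
      intro t
      induction t with
      | zero => exact ⟨fun _ => 0, fun k G _ α hα => absurd hα (Nat.not_lt_zero _), Nat.zero_le _⟩
      | succ t ih =>
        obtain ⟨T, hT, hs⟩ := ih
        by_cases hs1 : t + 1 ≤ ∑ G ∈ Finset.univ.image g, T G
        · exact ⟨T, hT, hs1⟩
        have hs2 : ∑ G ∈ Finset.univ.image g, T G = t := by omega
        have hz : ∀ k, lv R k ≤ t → ∀ X ∈ rw' R k, a (k, X) = 0 := by
          intro k hk
          exact lvl_zero g R a T k (hT k) (by rw [hs2]; exact hk)
        -- raise the order of the group G
        have raise : ∀ G ∈ Finset.univ.image g, (∀ k, cf R a k G (T G) = 0) →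
            ∃ T : ℕ → ℕ, (∀ k, ∀ G ∈ Finset.univ.image g, ∀ α < T G, cf R a k G α = 0) ∧
              t + 1 ≤ ∑ G ∈ Finset.univ.image g, T G := by
          intro G hG h
          refine ⟨Function.update T G (T G + 1), ?_, ?_⟩
          · intro k G' hG' α hα
            by_cases hGG : G' = G
            · subst hGG
              rw [Function.update_self] at hα
              rcases Nat.lt_succ_iff_lt_or_eq.1 hα with h1 | h1
              · exact hT k G' hG' α h1
              · rw [h1]
                exact h k
            · rw [Function.update_of_ne hGG] at hα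
              exact hT k G' hG' α hα
          · rw [Finset.sum_update_of_mem hG, ← hs2,
              ← Finset.add_sum_erase _ _ hG, Finset.sdiff_singleton_eq_erase]
            omega
        have hex : ∃ K, lv R K ≤ t := by
          refine ⟨m + 1, ?_⟩
          unfold lv
          rw [hfin (m + 1) (Nat.lt_succ_self m), Finset.card_empty]
          exact Nat.zero_le _
        obtain ⟨K, hK1, hK2⟩ : ∃ K, lv R K ≤ t ∧ ∀ k < K, t < lv R k :=
          ⟨Nat.find hex, Nat.find_spec hex, fun k hk => not_le.1 (Nat.find_min hex hk)⟩
        have hzk : ∀ k, K ≤ k → ∀ G α, cf R a k G α = 0 := fun k hk G α =>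
          hcf0 k (hz k ((hanti K k hk).trans hK1)) G α
        by_cases hK : ∃ G ∈ Finset.univ.image g, K ≤ SG M g G (T G)
        · obtain ⟨G, hG, hGK⟩ := hK
          apply raise G hG
          -- Descartes in z
          have h1 := Pool.Agent.Helper65.Nag.HOR.root
            (fun l : Fin b => if g l = G then M l - T G else 0)
            ((Finset.range K).image fun i : ℕ => (i : ℤ)) (fun n => cf R a n.toNat G (T G)) ?_ ?_
          · intro k
            rcases lt_or_ge k K with h2 | h2
            · have h3 := h1 (k : ℤ) (Finset.mem_image_of_mem _ (Finset.mem_range.2 h2))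
              simpa using h3
            · exact hzk k h2 G (T G)
          · intro l β hβ
            by_cases hl : g l = G
            · rw [if_pos hl] at hβ
              have h2 := hc l (T G) β (by omega)
              rw [hl] at h2
              rw [Finset.sum_image (fun i _ j _ hij => Nat.cast_injective hij)]
              have h3 : ∑ i ∈ Finset.range K, (fun n : ℤ => cf R a n.toNat G (T G)) (i : ℤ) *
                  (((Ring.choose (i : ℤ) β : ℤ) : ℚ) * (((l : ℕ) : ℚ) + 1) ^ (i : ℤ)) =
                  (((l : ℕ) : ℚ) + 1) ^ β * ∑ i ∈ Finset.range (m + 1), (((i.choose β : ℕ) : ℚ) *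
                    (((l : ℕ) : ℚ) + 1) ^ (i - β)) * cf R a i G (T G) := by
                have e1 : ∀ i : ℕ, (fun n : ℤ => cf R a n.toNat G (T G)) (i : ℤ) *
                    (((Ring.choose (i : ℤ) β : ℤ) : ℚ) * (((l : ℕ) : ℚ) + 1) ^ (i : ℤ)) =
                    (((l : ℕ) : ℚ) + 1) ^ β * ((((i.choose β : ℕ) : ℚ) *
                      (((l : ℕ) : ℚ) + 1) ^ (i - β)) * cf R a i G (T G)) := by
                  intro i
                  rw [Ring.choose_natCast, zpow_natCast]
                  simp only [Int.toNat_natCast, Int.cast_natCast]
                  rcases le_or_gt β i with h4 | h4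
                  · have h5 : (((l : ℕ) : ℚ) + 1) ^ i =
                        (((l : ℕ) : ℚ) + 1) ^ β * (((l : ℕ) : ℚ) + 1) ^ (i - β) := by
                      rw [← pow_add]
                      congr 1
                      omega
                    rw [h5]
                    ring
                  · rw [Nat.choose_eq_zero_of_lt h4]
                    simp
                rw [Finset.mul_sum, Finset.sum_congr rfl fun i _ => e1 i]
                rcases le_total K (m + 1) with h4 | h4
                · apply Finset.sum_subset (Finset.range_mono h4)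
                  intro i _ hi
                  rw [Finset.mem_range, not_lt] at hi
                  rw [hzk i hi G (T G)]
                  ring
                · symm
                  apply Finset.sum_subset (Finset.range_mono h4)
                  intro i _ hi
                  rw [Finset.mem_range, not_lt] at hi
                  have h5 : cf R a i G (T G) = 0 := by
                    rw [cf, hfin i (by omega), Finset.sum_empty]
                  rw [h5]
                  ring
              rw [h3, h2, mul_zero]
            · rw [if_neg hl] at hβ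
              omega
          · rw [Finset.card_image_of_injective _ Nat.cast_injective, Finset.card_range]
            refine hGK.trans (le_of_eq ?_)
            unfold SG gr
            rw [Finset.sum_filter]
        · -- stuck
          push Not at hK
          rcases Nat.eq_zero_or_pos K with h0 | h0
          · exact raise G0 hG0 fun k => hzk k (by omega) G0 (T G0)
          · exfalso
            have h1 : LG M g (K - 1 + 1) ≤ ∑ G ∈ Finset.univ.image g, T G := by
              unfold LG
              apply Finset.sum_le_sum
              intro G hG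
              have h2 : ((Finset.range (∑ l, M l)).filter fun τ => K - 1 + 1 ≤ SG M g G τ) ⊆
                  Finset.range (T G) := by
                intro τ hτ
                rw [Finset.mem_filter] at hτ
                rw [Finset.mem_range]
                by_contra hcon
                have h3 := hK G hG
                have h4 : SG M g G τ ≤ SG M g G (T G) := by
                  unfold SG
                  apply Finset.sum_le_sum
                  intro l _
                  omega
                omega
              exact (Finset.card_le_card h2).trans (le_of_eq (Finset.card_range _))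
            have h2 := hL (K - 1)
            have h3 := hK2 (K - 1) (by omega)
            omega
    intro q hq
    obtain ⟨T, hT, hs⟩ := key (lv R q.1)
    exact lvl_zero g R a T q.1 (hT q.1) hs q.2 ((mem_rw' R q.1 q.2).2 hq)

end Pool.Agent.Helper1.All.GHOR
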