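import Pool.Agent.Helper1.All.Final
import Pool.Agent.Helper15.All.MAIN

/-!
PROJECT ALLSYSTEMS: guillotine cuts of rectangles; the linear inequality (helper1).
-/

set_option autoImplicit false

noncomputable section

namespace Pool.Agent.Helper1.All

open Pool.Agent.Helper97.Nag Pool.Agent.Helper98.UN

/-- `Cut w h W H A`: a rectangle of width `W` and height `H` can be cut by guillotine cuts (every cut
divides a rectangle into two rectangles) into rectangles of width `w i` and height `h i`, `i ∈ A` -/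
inductive Cut {n : ℕ} (w h : Fin n → ℝ) : ℝ → ℝ → Finset (Fin n) → Prop
  | piece (i : Fin n) : 0 < w i → 0 < h i → Cut w h (w i) (h i) {i}
  | hor (W₁ W₂ H : ℝ) (A B : Finset (Fin n)) : Disjoint A B → Cut w h W₁ H A →
      Cut w h W₂ H B → Cut w h (W₁ + W₂) H (A ∪ B)
  | ver (W H₁ H₂ : ℝ) (A B : Finset (Fin n)) : Disjoint A B → Cut w h W H₁ A →
      Cut w h W H₂ B → Cut w h W (H₁ + H₂) (A ∪ B)

/-- the diagram of a cut -/
theorem tri {n : ℕ} {w h : Fin n → ℝ} (m : Fin n → ℕ) {W H : ℝ} {A : Finset (Fin n)}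
    (hC : Cut w h W H A) : 0 < W ∧ 0 < H ∧ ∃ lam, Dg m A lam ∧
      ∀ s a : ℕ, (a : ℝ) * H + W * s < ∑ i ∈ A, min (w i) (h i) * m i → a < lam s := by
  induction hC with
  | piece i hw hh =>
    refine ⟨hw, hh, _, Dg.pt i, fun s a hx => ?_⟩
    rw [Finset.sum_singleton] at hx
    have hm : 0 < min (w i) (h i) := lt_min hw hh
    have h1 : min (w i) (h i) * ((a : ℝ) + s) < min (w i) (h i) * m i := by
      refine lt_of_le_of_lt ?_ hx
      have h2 : min (w i) (h i) * (a : ℝ) ≤ (a : ℝ) * h i := by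
        rw [mul_comm]
        exact mul_le_mul_of_nonneg_left (min_le_right _ _) (Nat.cast_nonneg a)
      have h3 : min (w i) (h i) * (s : ℝ) ≤ w i * s :=
        mul_le_mul_of_nonneg_right (min_le_left _ _) (Nat.cast_nonneg s)
      linarith
    have h4 : (a : ℝ) + s < m i := lt_of_mul_lt_mul_left h1 hm.le
    have h5 : a + s < m i := by exact_mod_cast h4
    omega
  | hor W₁ W₂ H A B hAB _ _ ih1 ih2 =>
    obtain ⟨hW1, hH, lam, hl, h1⟩ := ih1
    obtain ⟨hW2, -, mu, hm, h2⟩ := ih2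
    refine ⟨by linarith, hH, _, Dg.row A B lam mu hAB hl hm, fun s a hx => ?_⟩
    rw [Finset.sum_union hAB] at hx
    by_contra hcon
    have h3 : ∑ i ∈ A, min (w i) (h i) * (m i : ℝ) ≤ (lam s : ℝ) * H + W₁ * s := by
      by_contra h4
      exact lt_irrefl _ (h1 s (lam s) (not_le.1 h4))
    have h4 : ∑ i ∈ B, min (w i) (h i) * (m i : ℝ) ≤ (mu s : ℝ) * H + W₂ * s := by
      by_contra h4
      exact lt_irrefl _ (h2 s (mu s) (not_le.1 h4))
    have h5 : ((lam s : ℝ) + mu s) ≤ a := by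
      have : lam s + mu s ≤ a := not_lt.1 hcon
      exact_mod_cast this
    have h6 : ((lam s : ℝ) + mu s) * H ≤ a * H := mul_le_mul_of_nonneg_right h5 hH.le
    linarith
  | ver W H₁ H₂ A B hAB _ _ ih1 ih2 =>
    obtain ⟨hW, hH1, lam, hl, h1⟩ := ih1
    obtain ⟨-, hH2, mu, hm, h2⟩ := ih2
    have i1 := isDg_of hl
    have i2 := isDg_of hm
    refine ⟨hW, by linarith, _, Dg.col A B lam mu hAB hl hm, fun s a hx => ?_⟩
    rw [Finset.sum_union hAB] at hx
    rw [lt_cj (isDg_add (isDg_cj i1) (isDg_cj i2))]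
    by_contra hcon
    have h3 : ∑ i ∈ A, min (w i) (h i) * (m i : ℝ) ≤ (a : ℝ) * H₁ + W * (cj lam a : ℝ) := by
      by_contra h4
      exact lt_irrefl _ ((lt_cj i1 _ _).2 (h1 (cj lam a) a (not_le.1 h4)))
    have h4 : ∑ i ∈ B, min (w i) (h i) * (m i : ℝ) ≤ (a : ℝ) * H₂ + W * (cj mu a : ℝ) := by
      by_contra h4
      exact lt_irrefl _ ((lt_cj i2 _ _).2 (h2 (cj mu a) a (not_le.1 h4)))
    have h5 : ((cj lam a : ℝ) + cj mu a) ≤ s := by
      have : cj lam a + cj mu a ≤ s := not_lt.1 hcon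
      exact_mod_cast this
    have h6 : W * ((cj lam a : ℝ) + cj mu a) ≤ W * s := mul_le_mul_of_nonneg_left h5 hW.le
    linarith

/-- a cut into pieces which contain the squares of side `m i + 1` -/
theorem cut_pack {n : ℕ} {w h : Fin n → ℝ} {m : Fin n → ℕ} (hm : ∀ i, (m i : ℝ) + 1 ≤ w i)
    (hm' : ∀ i, (m i : ℝ) + 1 ≤ h i) {W H : ℝ} {A : Finset (Fin n)} (hC : Cut w h W H A) :
    Pool.Agent.Helper35.All.GUI.Pack m W H A := by
  induction hC with
  | piece i _ _ => exact Pool.Agent.Helper35.All.GUI.Pack.piece i _ _ (hm i) (hm' i)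
  | hor W₁ W₂ H A B hAB _ _ ih1 ih2 => exact Pool.Agent.Helper35.All.GUI.Pack.hor _ _ _ _ _ hAB ih1 ih2
  | ver W H₁ H₂ A B hAB _ _ ih1 ih2 => exact Pool.Agent.Helper35.All.GUI.Pack.ver _ _ _ _ _ hAB ih1 ih2

/-- (E) for one system -/
theorem linE (hM : S_MAIN) (G : NGoals) {n d : ℕ} {m : Fin n → ℕ} {w h : Fin n → ℝ} {W H : ℝ}
    {A : Finset (Fin n)} (hC : Cut w h W H A)
    (hd : max (3 * H) (Real.sqrt (W * H)) * d < ∑ i ∈ A, min (w i) (h i) * m i) :
    GenDim d m 0 ∧ vdim d m ≤ 0 := by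
  obtain ⟨hW, hH, lam, hD, hl⟩ := tri m hC
  obtain ⟨V, hV⟩ : ∃ V : ℝ, V = (∑ i ∈ A, min (w i) (h i) * (m i : ℝ)) / H := ⟨_, rfl⟩
  have hVH : V * H = ∑ i ∈ A, min (w i) (h i) * (m i : ℝ) := by
    rw [hV, div_mul_cancel₀ _ hH.ne']
  rw [← hVH] at hd
  have h1 : 3 * (d : ℝ) < V := by
    have h2 : 3 * H * d ≤ max (3 * H) (Real.sqrt (W * H)) * d :=
      mul_le_mul_of_nonneg_right (le_max_left _ _) (Nat.cast_nonneg d)
    have h3 : (3 * (d : ℝ)) * H < V * H := by linarith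
    exact lt_of_mul_lt_mul_right h3 hH.le
  have h2 : (d : ℝ) ^ 2 * (W / H) < V ^ 2 := by
    have h3 : Real.sqrt (W * H) * d ≤ max (3 * H) (Real.sqrt (W * H)) * d :=
      mul_le_mul_of_nonneg_right (le_max_right _ _) (Nat.cast_nonneg d)
    have h4 : Real.sqrt (W * H) * d < V * H := lt_of_le_of_lt h3 hd
    have h5 : 0 ≤ Real.sqrt (W * H) * d := by positivity
    have h6 : (Real.sqrt (W * H) * d) ^ 2 < (V * H) ^ 2 := by
      exact pow_lt_pow_left₀ h4 h5 two_ne_zero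
    rw [mul_pow, Real.sq_sqrt (by positivity)] at h6
    have h7 : (d : ℝ) ^ 2 * (W / H) * H ^ 2 = W * H * d ^ 2 := by
      field_simp
    have h8 : ((d : ℝ) ^ 2 * (W / H)) * H ^ 2 < V ^ 2 * H ^ 2 := by
      rw [h7]
      nlinarith
    exact lt_of_mul_lt_mul_right h8 (by positivity)
  obtain ⟨rho, h0, h3, h4, ht⟩ := Pool.Agent.Helper35.All.PRE.t d V (W / H) (by positivity) h1 h2
  obtain ⟨⟨C, hCm, hcard⟩, -⟩ := G.cbt d rho ht
  have hV0 : 0 < V := lt_of_le_of_lt (by positivity) h1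
  have hN : ∀ s, nr C (s + 1) ≤ lam s := by
    intro s
    refine (Pool.Agent.Helper35.All.CNE.t d rho V (W / H) h0 hV0 h3 h4 C
      (fun q hq => (hCm q).1 hq) s).trans ?_
    by_contra hcon
    have h5 : (lam s : ℝ) < V - s * (W / H) := Nat.lt_ceil.1 (not_le.1 hcon)
    apply lt_irrefl (lam s)
    apply hl
    rw [← hVH]
    have h6 : (lam s : ℝ) * H < (V - s * (W / H)) * H := mul_lt_mul_of_pos_right h5 hH
    have h7 : (V - s * (W / H)) * H = V * H - W * s := by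
      field_simp
    linarith
  obtain ⟨u, v, hu, hv, hI⟩ := FIN.emp m A lam hD C hN
  obtain ⟨K, i1, i2, P, hP⟩ := hM d n m u v rho C hu (fun l => (hv l).ne')
    (fun c hc => (hCm c).1 hc) hI
  have h5 := transC (n := n) (d := d) (m := m) (N := 0) G.trk ⟨K, i1, i2, P, by omega⟩
  have h6 := upgrade h5 (by simp)
  obtain ⟨G', hG0, hG⟩ := h5
  have h7 : GenDim d m 0 := ⟨G', hG0, fun P _ hP => by
    rw [Nat.le_zero.1 (hG P hP)]
    rfl⟩
  refine ⟨h7, ?_⟩
  rw [← gen_unique h6 h7]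
  exact le_max_left _ _

end Pool.Agent.Helper1.All
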