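import Pool.Agent.Helper1.All.Goals

/-! Project ALLSYSTEMS, S_SUB: levels of the compressed set (helper1). -/

set_option autoImplicit false

noncomputable section

namespace Pool.Agent.Helper1.All.SUB

open Pool.Agent.Helper98.UN

theorem mem_cmp (S : Finset (ℕ × ℤ)) (i : ℕ) (X : ℤ) :
    (i, X) ∈ cmp S ↔ X ∈ S.image Prod.snd ∧ i < rl S X := by
  unfold cmp
  rw [Finset.mem_biUnion]
  constructor
  · rintro ⟨Y, hY, h⟩
    rw [Finset.mem_image] at h
    obtain ⟨j, hj, h⟩ := h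
    rw [Prod.mk.injEq] at h
    obtain ⟨rfl, rfl⟩ := h
    exact ⟨hY, Finset.mem_range.1 hj⟩
  · rintro ⟨h1, h2⟩
    exact ⟨X, h1, Finset.mem_image.2 ⟨i, Finset.mem_range.2 h2, rfl⟩⟩

theorem rw_cmp (S : Finset (ℕ × ℤ)) (i : ℕ) :
    rw' (cmp S) i = (S.image Prod.snd).filter fun X => i + 1 ≤ rl S X := by
  ext X
  rw [mem_rw', mem_cmp, Finset.mem_filter]
  exact Iff.rfl

theorem t : S_SUB := by
  classical
  intro S
  refine ⟨fun i => ?_, ?_⟩
  · unfold lv nr
    rw [rw_cmp]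
  · intro μ hμ
    have h : ∀ i, ∃ A ⊆ rw' (cmp S) i, A.card = μ i := by
      intro i
      apply Finset.exists_subset_card_eq
      rw [rw_cmp]
      exact hμ i
    choose A hA1 hA2 using h
    refine ⟨(cmp S).filter fun q => q.2 ∈ A q.1, Finset.filter_subset _ _, fun i => ?_⟩
    unfold lv
    rw [← hA2 i]
    congr 1
    ext X
    rw [mem_rw', Finset.mem_filter]
    exact ⟨fun h => h.2, fun h => ⟨(mem_rw' _ _ _).1 (hA1 i h), h⟩⟩

end Pool.Agent.Helper1.All.SUB
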